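import Mathlib
import Pool.Agent.H443R2.AB.Final

set_option autoImplicit false

namespace Pool.H388R3.AB

open MvPolynomial Pool.Agent.H443R2.AB Pool.Agent.H443R2.AB.SF

/-- additive basis theorem with the explicit number `2p - 2` of bases -/
theorem explicit (p : ℕ) [Fact p.Prime] (n : ℕ)
    (b : Fin (2 * p - 2) → Module.Basis (Fin n) (ZMod p) (Fin n → ZMod p))
    (v : Fin n → ZMod p) :
    ∃ S : Finset (Fin (2 * p - 2) × Fin n), ∑ x ∈ S, b x.1 x.2 = v := by
  have h1 := prod_ne_zero_of_bases p (F := ZMod p) (n := n) (fun j i => b j i)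
    (fun j => (b j).linearIndependent)
  obtain ⟨T, hT⟩ : ∃ T, cf (∏ i, (L (fun x : Fin (2 * p - 2) × Fin n => b x.1 x.2 i) :
      SF (Fin (2 * p - 2) × Fin n) (ZMod p)) ^ (p - 1)) T ≠ 0 := by
    by_contra hcon
    push Not at hcon
    exact h1 (SF.ext fun T => by rw [hcon T, SF.zero_apply])
  obtain ⟨S, _, hS⟩ := subset_sums_of_coeff p
    (fun i (x : Fin (2 * p - 2) × Fin n) => b x.1 x.2 i) T hT v
  refine ⟨S, ?_⟩
  funext i
  rw [Finset.sum_apply]
  exact hS i

theorem four_bases (n : ℕ)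
    (b : Fin 4 → Module.Basis (Fin n) (ZMod 3) (Fin n → ZMod 3))
    (v : Fin n → ZMod 3) :
    ∃ S : Finset (Fin 4 × Fin n), ∑ x ∈ S, b x.1 x.2 = v := by
  have : Fact (Nat.Prime 3) := ⟨Nat.prime_three⟩
  exact explicit 3 n b v

end Pool.H388R3.AB
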