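import Mathlib

/-!
Blocks of integers free of three-term progressions.
-/

namespace Pool.Agent.H388R3.Chg

open Finset

/-- length parameter of the `j`-th block -/
def Ln (m j : ℕ) : ℕ := 2 ^ (m * j ^ 2 - 2)

/-- start of the `j`-th block -/
def Nn (m j : ℕ) : ℕ := 2 ^ (m * j ^ 2)

lemma four_Ln {m j : ℕ} (hm : 2 ≤ m) (hj : 1 ≤ j) : 4 * Ln m j = Nn m j := by
  unfold Ln Nn
  have h : 2 ≤ m * j ^ 2 := by nlinarith [Nat.one_le_pow 2 j hj]
  have : 4 * 2 ^ (m * j ^ 2 - 2) = 2 ^ (2 + (m * j ^ 2 - 2)) := by rw [pow_add]; norm_num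
  rw [this]
  congr 1
  omega

lemma Nn_step {m i j : ℕ} (hm : 2 ≤ m) (h0 : 1 ≤ i) (hij : i < j) : 8 * Nn m i ≤ Nn m j := by
  unfold Nn
  have : 8 * 2 ^ (m * i ^ 2) = 2 ^ (3 + m * i ^ 2) := by rw [pow_add]; norm_num
  rw [this]
  apply Nat.pow_le_pow_right (by norm_num)
  have h1 : (i + 1) ^ 2 ≤ j ^ 2 := Nat.pow_le_pow_left hij 2
  have h2 : m * (i + 1) ^ 2 ≤ m * j ^ 2 := Nat.mul_le_mul_left _ h1
  nlinarith

/-- The 3AP-free set used in block `j`. -/
noncomputable def tt (m j : ℕ) : Finset ℕ := (rothNumberNat_spec (Ln m j)).choose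

lemma tt_sub (m j : ℕ) : tt m j ⊆ range (Ln m j) := (rothNumberNat_spec (Ln m j)).choose_spec.1
lemma tt_card (m j : ℕ) : (tt m j).card = rothNumberNat (Ln m j) :=
  (rothNumberNat_spec (Ln m j)).choose_spec.2.1
lemma tt_free (m j : ℕ) : ThreeAPFree (tt m j : Set ℕ) :=
  (rothNumberNat_spec (Ln m j)).choose_spec.2.2

/-- The `j`-th block. -/
noncomputable def Dd (m j : ℕ) : Finset ℤ :=
  (tt m j).image (fun x : ℕ => ((Nn m j + x : ℕ) : ℤ))

lemma mem_Dd {m j : ℕ} {n : ℤ} (h : n ∈ Dd m j) :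
    ∃ x : ℕ, x ∈ tt m j ∧ x < Ln m j ∧ n = ((Nn m j + x : ℕ) : ℤ) := by
  unfold Dd at h
  obtain ⟨x, hx, rfl⟩ := Finset.mem_image.1 h
  exact ⟨x, hx, Finset.mem_range.1 (tt_sub m j hx), rfl⟩

lemma Dd_card (m j : ℕ) : (Dd m j).card = rothNumberNat (Ln m j) := by
  unfold Dd
  rw [Finset.card_image_of_injective, tt_card]
  intro x y h
  simp only [Nat.cast_inj, add_right_inj] at h
  exact h

/-- The block index of an integer. -/
def bi (m : ℕ) (n : ℤ) : ℕ := Nat.sqrt (Nat.log 2 n.toNat / m)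

lemma bi_mono (m : ℕ) {n n' : ℤ} (h : n ≤ n') : bi m n ≤ bi m n' := by
  unfold bi
  apply Nat.sqrt_le_sqrt
  apply Nat.div_le_div_right
  exact Nat.log_mono_right (Int.toNat_le_toNat h)

lemma bi_Dd {m j : ℕ} (hm : 2 ≤ m) (hj : 1 ≤ j) {n : ℤ} (h : n ∈ Dd m j) : bi m n = j := by
  obtain ⟨x, _, hx, rfl⟩ := mem_Dd h
  unfold bi
  rw [Int.toNat_natCast]
  have h4 := four_Ln hm hj
  have h1 : Nat.log 2 (Nn m j + x) = m * j ^ 2 := by
    apply Nat.log_eq_of_pow_le_of_lt_pow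
    · show Nn m j ≤ Nn m j + x
      omega
    · rw [pow_succ]
      show Nn m j + x < Nn m j * 2
      omega
  rw [h1, Nat.mul_div_cancel_left _ (by omega), Nat.sqrt_eq']

/-- The blocks together are free of three-term progressions. -/
lemma Dd_free {m : ℕ} (hm : 2 ≤ m) {i j k : ℕ} (hi : 1 ≤ i) (hj : 1 ≤ j) (hk : 1 ≤ k)
    {a b c : ℤ} (ha : a ∈ Dd m i) (hb : b ∈ Dd m j) (hc : c ∈ Dd m k) (h : a + c = b + b) :
    a = b := by
  obtain ⟨x, hx, hxL, rfl⟩ := mem_Dd ha
  obtain ⟨y, hy, hyL, rfl⟩ := mem_Dd hb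
  obtain ⟨z, hz, hzL, rfl⟩ := mem_Dd hc
  have e : (Nn m i + x) + (Nn m k + z) = (Nn m j + y) + (Nn m j + y) := by exact_mod_cast h
  have hi4 := four_Ln hm hi
  have hj4 := four_Ln hm hj
  have hk4 := four_Ln hm hk
  have hN : ∀ i j : ℕ, 1 ≤ i → i < j → 8 * Nn m i ≤ Nn m j := fun i j h0 hij => Nn_step hm h0 hij
  have hij : i = j := by
    by_contra hne
    rcases Nat.lt_or_gt_of_ne hne with h1 | h1
    · rcases Nat.lt_trichotomy k j with h2 | h2 | h2
      · have := hN i j hi h1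
        have := hN k j hk h2
        omega
      · subst h2
        have := hN i k hi h1
        omega
      · have := hN j k hj h2
        have := hN i j hi h1
        omega
    · rcases Nat.lt_trichotomy k i with h2 | h2 | h2
      · have := hN j i hj h1
        have := hN k i hk h2
        omega
      · subst h2
        have := hN j k hj h1
        omega
      · have := hN i k hi h2
        have := hN j i hj h1
        omega
  subst hij
  have hik : k = i := by
    by_contra hne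
    rcases Nat.lt_or_gt_of_ne hne with h1 | h1
    · have := hN k i hk h1
      omega
    · have := hN i k hi h1
      omega
  subst hik
  have h3 : x + z = y + y := by omega
  have := tt_free m k hx hy hz h3
  rw [this]

lemma Dd_disj {m i j : ℕ} (hm : 2 ≤ m) (hi : 1 ≤ i) (hj : 1 ≤ j) (hij : i ≠ j) :
    Disjoint (Dd m i) (Dd m j) := by
  rw [Finset.disjoint_left]
  intro n h1 h2
  apply hij
  rw [← bi_Dd hm hi h1, ← bi_Dd hm hj h2]

lemma Dd_card_ge {m j : ℕ} (hm : 2 ≤ m) (hj : 1 ≤ j) :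
    (Ln m j : ℝ) * (1 / 2) ^ (6 * m * j) ≤ (Dd m j).card := by
  rw [Dd_card]
  refine le_trans ?_ (Behrend.roth_lower_bound (N := Ln m j))
  apply mul_le_mul_of_nonneg_left _ (by positivity)
  have h1 : Real.sqrt (Real.log (Ln m j)) ≤ m * j := by
    rw [Real.sqrt_le_left (by positivity)]
    unfold Ln
    push_cast
    rw [Real.log_pow]
    have hl : Real.log 2 ≤ 1 := by
      have := Real.log_two_lt_d9
      linarith
    have hl0 : 0 ≤ Real.log 2 := Real.log_nonneg (by norm_num)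
    have h2 : ((m * j ^ 2 - 2 : ℕ) : ℝ) ≤ (m : ℝ) * j ^ 2 := by
      have : m * j ^ 2 - 2 ≤ m * j ^ 2 := Nat.sub_le _ _
      exact_mod_cast this
    have hm' : (1 : ℝ) ≤ m := by exact_mod_cast (by omega : 1 ≤ m)
    calc ((m * j ^ 2 - 2 : ℕ) : ℝ) * Real.log 2 ≤ ((m : ℝ) * j ^ 2) * 1 := by gcongr
      _ ≤ ((m : ℝ) * j ^ 2) * m := by gcongr
      _ = (m * j) ^ 2 := by ring
  calc (1 / 2 : ℝ) ^ (6 * m * j) = ((1 / 64 : ℝ)) ^ (m * j) := by
        rw [show 6 * m * j = 6 * (m * j) by ring, pow_mul]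
        norm_num
    _ ≤ (Real.exp (-4)) ^ (m * j) := by
        apply pow_le_pow_left₀ (by norm_num)
        rw [Real.exp_neg, one_div]
        apply inv_anti₀ (Real.exp_pos _)
        exact Behrend.exp_four_lt.le
    _ = Real.exp (-4 * (m * j : ℝ)) := by
        rw [← Real.exp_nat_mul]
        congr 1
        push_cast
        ring
    _ ≤ Real.exp (-4 * Real.sqrt (Real.log (Ln m j))) := by
        apply Real.exp_le_exp.2
        linarith

end Pool.Agent.H388R3.Chg
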