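import Pool.Agent.H388R3.ChgSums

/-!
The finite existence theorem (deletion method).
-/

namespace Pool.Agent.H388R3.Chg

open Finset

lemma ent_base {a b : ℕ} (t : ℤ × (Fin a ⊕ Fin b → ℤ)) : t.1 ∈ ent t := by
  unfold ent
  rw [Finset.mem_image]
  exact ⟨(none, none), Finset.mem_univ _, by simp [xx, kk]⟩

lemma ent_val {a b : ℕ} (t : ℤ × (Fin a ⊕ Fin b → ℤ)) (x : Fin a ⊕ Fin b) : t.2 x ∈ ent t := by
  unfold ent
  rw [Finset.mem_image]
  cases x with
  | inl i => exact ⟨(some i, none), Finset.mem_univ _, by simp [xx, kk]⟩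
  | inr l => exact ⟨(none, some l), Finset.mem_univ _, by simp [xx, kk]⟩

open Classical in
/-- the element to delete -/
noncomputable def pick {a b : ℕ} (J : ℕ) (t : ℤ × (Fin a ⊕ Fin b → ℤ)) : ℤ :=
  if h : ∃ x, bi (mm a b) (t.2 x) = J then t.2 h.choose else 0

lemma pick_spec {a b : ℕ} {J : ℕ} {t : ℤ × (Fin a ⊕ Fin b → ℤ)}
    (h : ∃ x, bi (mm a b) (t.2 x) = J) : bi (mm a b) (pick J t) = J ∧ pick J t ∈ ent t := by
  unfold pick
  rw [dif_pos h]
  exact ⟨h.choose_spec, ent_val t _⟩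

lemma sum_lt_one {a b J1 : ℕ} (ha : 1 ≤ a) (hb : 1 ≤ b) :
    ∑ J ∈ Icc (J0 a b) J1, (4 / (∑ n ∈ Dd (mm a b) J, pp a b n) +
      4 * (∑ t ∈ bad a b J1 J, ∏ n ∈ ent t, pp a b n) / (∑ n ∈ Dd (mm a b) J, pp a b n)) < 1 := by
  have key : ∀ J ∈ Icc (J0 a b) J1, (4 / (∑ n ∈ Dd (mm a b) J, pp a b n) +
      4 * (∑ t ∈ bad a b J1 J, ∏ n ∈ ent t, pp a b n) / (∑ n ∈ Dd (mm a b) J, pp a b n)) ≤
      3 / 4 * (1 / 2 : ℝ) ^ J := by
    intro J hJ
    obtain ⟨hJ0, hJ1⟩ := Finset.mem_Icc.1 hJ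
    have h1J : 1 ≤ J := (one_le_J0 a b).trans hJ0
    have hmu := mu_ge ha hb hJ0
    have hbad := bad_sum (J1 := J1) ha hb hJ0
    set M : ℝ := 2 ^ (a * b * J ^ 2) * (1 / 2 : ℝ) ^ (C1 a b * J) / 4 with hM
    have hMpos : 0 < M := by positivity
    set μ : ℝ := ∑ n ∈ Dd (mm a b) J, pp a b n with hμ
    set T : ℝ := ∑ t ∈ bad a b J1 J, ∏ n ∈ ent t, pp a b n with hT
    have hμpos : 0 < μ := lt_of_lt_of_le hMpos hmu
    have hT0 : 0 ≤ T := Finset.sum_nonneg fun t _ => Finset.prod_nonneg fun n _ =>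
      pow_nonneg (ss_pos _ _ _).le _
    have hab : 1 ≤ a * b := Nat.mul_pos ha hb
    -- first term
    have hA : 4 / μ ≤ 1 / 4 * (1 / 2 : ℝ) ^ J := by
      have h1 : 16 * (2 : ℝ) ^ J ≤ M := by
        have e1 : (2 : ℝ) ^ (J + 6 + C1 a b * J) ≤ 2 ^ (a * b * J ^ 2) := by
          apply pow_le_pow_right₀ (by norm_num)
          have h2 : J0 a b * J ≤ J * J := Nat.mul_le_mul_right _ hJ0
          have h3 : J ^ 2 ≤ a * b * J ^ 2 := Nat.le_mul_of_pos_left _ hab
          unfold J0 at h2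
          nlinarith
        have e2 : (2 : ℝ) ^ (J + 6 + C1 a b * J) * (1 / 2 : ℝ) ^ (C1 a b * J) = 64 * 2 ^ J := by
          rw [pow_add, mul_assoc, ← mul_pow, pow_add]
          norm_num
          ring
        have e3 : (2 : ℝ) ^ (J + 6 + C1 a b * J) * (1 / 2 : ℝ) ^ (C1 a b * J) ≤
            2 ^ (a * b * J ^ 2) * (1 / 2 : ℝ) ^ (C1 a b * J) := by gcongr
        rw [hM]
        linarith
      have h2 : 16 * (2 : ℝ) ^ J ≤ μ := h1.trans hmu
      rw [div_le_iff₀ hμpos]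
      have h3 : (1 / 2 : ℝ) ^ J * 2 ^ J = 1 := by
        rw [← mul_pow]; norm_num
      have h4 : (0 : ℝ) < (1 / 2 : ℝ) ^ J := by positivity
      nlinarith
    -- second term
    have hB : 4 * T / μ ≤ 1 / 2 * (1 / 2 : ℝ) ^ J := by
      rw [div_le_iff₀ hμpos]
      have h1 : 4 * T ≤ 1 / 2 * (1 / 2 : ℝ) ^ J * M := by
        have h2 : (1 / 2 : ℝ) ^ (mm a b * kap a b * J) ≤
            (1 / 2 : ℝ) ^ (C1 a b * J + (a + b) + 5 + J) := by
          apply pow_le_pow_of_le_one (by norm_num) (by norm_num)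
          have h3 : C1 a b + (a + b) + 6 ≤ mm a b * kap a b := by
            have : mm a b * kap a b = a * b * kap a b + (a + b) * kap a b := by
              unfold mm; ring
            rw [this]
            unfold C1
            have h5 : kap a b ≤ a * b * kap a b := Nat.le_mul_of_pos_left _ hab
            have h6 : kap a b = 6 * mm a b + (a + b) + 6 := rfl
            omega
          have h4 : (C1 a b + (a + b) + 6) * J ≤ mm a b * kap a b * J :=
            Nat.mul_le_mul_right _ h3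
          have h7 : (a + b) + 5 ≤ ((a + b) + 5) * J := Nat.le_mul_of_pos_right _ h1J
          nlinarith
        have h8 : ((a : ℝ) + b) ≤ 2 ^ (a + b) := by
          have : a + b < 2 ^ (a + b) := Nat.lt_two_pow_self
          exact_mod_cast this.le
        calc 4 * T ≤ 4 * ((a + b) * (2 ^ (a * b * J ^ 2) *
              (1 / 2 : ℝ) ^ (mm a b * kap a b * J))) := by linarith
          _ ≤ 4 * (2 ^ (a + b) * (2 ^ (a * b * J ^ 2) *
              (1 / 2 : ℝ) ^ (C1 a b * J + (a + b) + 5 + J))) := by gcongr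
          _ = 1 / 2 * (1 / 2 : ℝ) ^ J * M := by
              rw [hM, pow_add (1 / 2 : ℝ) (C1 a b * J + (a + b) + 5) J,
                pow_add (1 / 2 : ℝ) (C1 a b * J + (a + b)) 5,
                pow_add (1 / 2 : ℝ) (C1 a b * J) (a + b)]
              have : (2 : ℝ) ^ (a + b) * (1 / 2 : ℝ) ^ (a + b) = 1 := by
                rw [← mul_pow]; norm_num
              generalize (2 : ℝ) ^ (a + b) = P at *
              generalize (1 / 2 : ℝ) ^ (a + b) = Q at *
              generalize (2 : ℝ) ^ (a * b * J ^ 2) = A at *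
              generalize (1 / 2 : ℝ) ^ (C1 a b * J) = B at *
              generalize (1 / 2 : ℝ) ^ J = C at *
              linear_combination (4 * A * B * C * (1 / 2) ^ 5) * this
      calc 4 * T ≤ 1 / 2 * (1 / 2 : ℝ) ^ J * M := h1
        _ ≤ 1 / 2 * (1 / 2 : ℝ) ^ J * μ := by gcongr
    linarith
  calc _ ≤ ∑ J ∈ Icc (J0 a b) J1, 3 / 4 * (1 / 2 : ℝ) ^ J := Finset.sum_le_sum key
    _ = 3 / 4 * ∑ J ∈ Icc (J0 a b) J1, (1 / 2 : ℝ) ^ J := by rw [Finset.mul_sum]
    _ ≤ 3 / 4 * 1 := by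
        apply mul_le_mul_of_nonneg_left (half_sum _ _ (one_le_J0 a b)) (by norm_num)
    _ < 1 := by norm_num

theorem finite_exists {a b : ℕ} (ha : 1 ≤ a) (hb : 1 ≤ b) (J1 : ℕ) :
    ∃ A ⊆ GD a b J1, (∀ t : ℤ × (Fin a ⊕ Fin b → ℤ), Adm t → ¬ ent t ⊆ A) ∧
      ∀ J ∈ Icc (J0 a b) J1, 2 ^ (a * b * J ^ 2) * (1 / 2 : ℝ) ^ (C1 a b * J) / 16 ≤
        ((A ∩ Dd (mm a b) J).card : ℝ) := by
  classical
  have h := exists_good (pp a b) (GD a b J1)
    (fun n _ => pow_nonneg (ss_pos _ _ _).le _)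
    (fun n _ => pow_le_one₀ (ss_pos _ _ _).le (ss_le_one _ _ _))
    (Icc (J0 a b) J1) (Dd (mm a b))
    (fun i hi n hn => mem_GD.2 ⟨i, Finset.mem_Icc.1 hi, hn⟩)
    (bad a b J1) ent
    (fun i hi t ht => (Finset.mem_filter.1 ht).2.2.1)
    (fun i hi => lt_of_lt_of_le (by positivity) (mu_ge ha hb (Finset.mem_Icc.1 hi).1))
    (sum_lt_one ha hb)
  obtain ⟨S, hS, hgood⟩ := h
  set im : ℕ → Finset ℤ := fun J =>
    ((bad a b J1 J).filter (fun t => ent t ⊆ S)).image (pick J) with him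
  have him_bi : ∀ J n, n ∈ im J → bi (mm a b) n = J := by
    intro J n hn
    obtain ⟨t, ht, rfl⟩ := Finset.mem_image.1 hn
    have ht' := (Finset.mem_filter.1 ht).1
    have := (Finset.mem_filter.1 ht').2.2.2.2
    exact (pick_spec this).1
  refine ⟨S \ (Icc (J0 a b) J1).biUnion im, Finset.sdiff_subset.trans hS, ?_, ?_⟩
  · intro t ht hA
    have hGD : ent t ⊆ GD a b J1 := hA.trans (Finset.sdiff_subset.trans hS)
    have hne : (univ : Finset (Fin a ⊕ Fin b)).Nonempty :=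
      ⟨Sum.inl ⟨0, ha⟩, Finset.mem_univ _⟩
    obtain ⟨x0, _, hx0⟩ := Finset.exists_mem_eq_sup univ hne (fun x => bi (mm a b) (t.2 x))
    set J := univ.sup (fun x => bi (mm a b) (t.2 x)) with hJ
    have hJr := (bi_GD ha hb (hGD (ent_val t x0))).1
    rw [← hx0] at hJr
    have hbad : t ∈ bad a b J1 J := by
      unfold bad
      rw [Finset.mem_filter, Finset.mem_product, Fintype.mem_piFinset]
      refine ⟨⟨hGD (ent_base t), fun x => hGD (ent_val t x)⟩, ht, hGD, ?_, ⟨x0, hx0.symm⟩⟩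
      intro x
      exact Finset.le_sup (f := fun x => bi (mm a b) (t.2 x)) (Finset.mem_univ x)
    have hp := pick_spec (t := t) (J := J) ⟨x0, hx0.symm⟩
    have h1 : pick J t ∈ im J := by
      simp only [him]
      apply Finset.mem_image_of_mem
      rw [Finset.mem_filter]
      exact ⟨hbad, hA.trans Finset.sdiff_subset⟩
    have h2 := hA hp.2
    rw [Finset.mem_sdiff] at h2
    exact h2.2 (Finset.mem_biUnion.2 ⟨J, Finset.mem_Icc.2 hJr, h1⟩)
  · intro J hJ
    obtain ⟨h1, h2⟩ := hgood J hJ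
    have hmu := mu_ge ha hb (Finset.mem_Icc.1 hJ).1
    have hJ1 : 1 ≤ J := (one_le_J0 a b).trans (Finset.mem_Icc.1 hJ).1
    have hsub : (S ∩ Dd (mm a b) J) \ im J ⊆
        (S \ (Icc (J0 a b) J1).biUnion im) ∩ Dd (mm a b) J := by
      intro n hn
      rw [Finset.mem_sdiff, Finset.mem_inter] at hn
      obtain ⟨⟨hnS, hnD⟩, hnim⟩ := hn
      rw [Finset.mem_inter, Finset.mem_sdiff]
      refine ⟨⟨hnS, ?_⟩, hnD⟩
      intro hmem
      obtain ⟨J', _, hJ''⟩ := Finset.mem_biUnion.1 hmem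
      have e1 := him_bi J' n hJ''
      have e2 := bi_Dd (two_le_mm ha hb) hJ1 hnD
      rw [e1] at e2
      subst e2
      exact hnim hJ''
    have hcard : ((S ∩ Dd (mm a b) J).card : ℝ) - ((im J).card : ℝ) ≤
        (((S \ (Icc (J0 a b) J1).biUnion im) ∩ Dd (mm a b) J).card : ℝ) := by
      have h3 := Finset.card_le_card hsub
      have h4 := Finset.le_card_sdiff (im J) (S ∩ Dd (mm a b) J)
      have h5 : (S ∩ Dd (mm a b) J).card ≤
          ((S \ (Icc (J0 a b) J1).biUnion im) ∩ Dd (mm a b) J).card + (im J).card := by omega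
      have h6 : ((S ∩ Dd (mm a b) J).card : ℝ) ≤
          (((S \ (Icc (J0 a b) J1).biUnion im) ∩ Dd (mm a b) J).card : ℝ) +
            ((im J).card : ℝ) := by exact_mod_cast h5
      linarith
    have him' : ((im J).card : ℝ) ≤
        (((bad a b J1 J).filter (fun t => ent t ⊆ S)).card : ℝ) := by
      exact_mod_cast Finset.card_image_le
    linarith

end Pool.Agent.H388R3.Chg
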