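import Pool.Agent.H388R3.ChgProb
import Pool.Agent.H388R3.ChgBlocks

/-!
The deletion argument for sets without `g` translates of an `h`-set (finite version).
Here `h = a + 1`, `g = b + 1`.
-/

namespace Pool.Agent.H388R3.Chg

open Finset

/-- `h g - 1` -/
def mm (a b : ℕ) : ℕ := a * b + (a + b)

/-- the density loss parameter -/
def kap (a b : ℕ) : ℕ := 6 * mm a b + (a + b) + 6

/-- loss constant -/
def C1 (a b : ℕ) : ℕ := 6 * mm a b + (a + b) * kap a b

/-- the first block -/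
def J0 (a b : ℕ) : ℕ := C1 a b + 7

/-- base weights -/
noncomputable def sj (a b j : ℕ) : ℝ := (1 / 2 : ℝ) ^ (j ^ 2 + kap a b * j)

/-- weights of integers -/
noncomputable def ss (a b : ℕ) (n : ℤ) : ℝ := sj a b (bi (mm a b) n)

lemma sj_pos (a b j : ℕ) : 0 < sj a b j := by unfold sj; positivity
lemma sj_le_one (a b j : ℕ) : sj a b j ≤ 1 := pow_le_one₀ (by norm_num) (by norm_num)

lemma sj_anti (a b : ℕ) {i j : ℕ} (h : i ≤ j) : sj a b j ≤ sj a b i := by
  unfold sj
  apply pow_le_pow_of_le_one (by norm_num) (by norm_num)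
  have h1 : i ^ 2 ≤ j ^ 2 := Nat.pow_le_pow_left h 2
  have h2 : kap a b * i ≤ kap a b * j := Nat.mul_le_mul_left _ h
  omega

lemma ss_pos (a b : ℕ) (n : ℤ) : 0 < ss a b n := sj_pos _ _ _
lemma ss_le_one (a b : ℕ) (n : ℤ) : ss a b n ≤ 1 := sj_le_one _ _ _
lemma ss_anti (a b : ℕ) {n n' : ℤ} (h : n ≤ n') : ss a b n' ≤ ss a b n :=
  sj_anti a b (bi_mono _ h)

/-- probabilities -/
noncomputable def pp (a b : ℕ) (n : ℤ) : ℝ := ss a b n ^ (a + b)

/-- the ground set -/
noncomputable def GD (a b J1 : ℕ) : Finset ℤ := (Icc (J0 a b) J1).biUnion (Dd (mm a b))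

/-- the `x`-part of a tuple -/
def xx {a b : ℕ} (t : ℤ × (Fin a ⊕ Fin b → ℤ)) : Option (Fin a) → ℤ :=
  fun o => o.elim 0 (fun i => t.2 (Sum.inl i) - t.1)

/-- the `k`-part of a tuple -/
def kk {a b : ℕ} (t : ℤ × (Fin a ⊕ Fin b → ℤ)) : Option (Fin b) → ℤ :=
  fun o => o.elim t.1 (fun l => t.2 (Sum.inr l))

/-- the entries of a tuple -/
def ent {a b : ℕ} (t : ℤ × (Fin a ⊕ Fin b → ℤ)) : Finset ℤ :=
  (univ : Finset (Option (Fin a) × Option (Fin b))).image (fun q => xx t q.1 + kk t q.2)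

/-- admissible tuples -/
def Adm {a b : ℕ} (t : ℤ × (Fin a ⊕ Fin b → ℤ)) : Prop :=
  (∀ x, t.1 < t.2 x) ∧ Function.Injective (fun i => t.2 (Sum.inl i)) ∧
    Function.Injective (fun i => t.2 (Sum.inr i))

lemma xx_inj {a b : ℕ} {t : ℤ × (Fin a ⊕ Fin b → ℤ)} (h : Adm t) :
    Function.Injective (xx t) := by
  intro o o' hoo
  cases o with
  | none =>
    cases o' with
    | none => rfl
    | some i' =>
      have := h.1 (Sum.inl i')
      simp only [xx, Option.elim] at hoo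
      omega
  | some i =>
    cases o' with
    | none =>
      have := h.1 (Sum.inl i)
      simp only [xx, Option.elim] at hoo
      omega
    | some i' =>
      simp only [xx, Option.elim] at hoo
      have : t.2 (Sum.inl i) = t.2 (Sum.inl i') := by omega
      rw [h.2.1 this]

lemma kk_inj {a b : ℕ} {t : ℤ × (Fin a ⊕ Fin b → ℤ)} (h : Adm t) :
    Function.Injective (kk t) := by
  intro o o' hoo
  cases o with
  | none =>
    cases o' with
    | none => rfl
    | some i' =>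
      have := h.1 (Sum.inr i')
      simp only [kk, Option.elim] at hoo
      omega
  | some i =>
    cases o' with
    | none =>
      have := h.1 (Sum.inr i)
      simp only [kk, Option.elim] at hoo
      omega
    | some i' =>
      simp only [kk, Option.elim] at hoo
      rw [h.2.2 hoo]

lemma two_le_mm {a b : ℕ} (ha : 1 ≤ a) (hb : 1 ≤ b) : 2 ≤ mm a b := by
  unfold mm; omega

lemma one_le_J0 (a b : ℕ) : 1 ≤ J0 a b := by unfold J0; omega

lemma mem_GD {a b J1 : ℕ} {n : ℤ} : n ∈ GD a b J1 ↔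
    ∃ j, (J0 a b ≤ j ∧ j ≤ J1) ∧ n ∈ Dd (mm a b) j := by
  unfold GD
  simp

lemma bi_GD {a b J1 : ℕ} (ha : 1 ≤ a) (hb : 1 ≤ b) {n : ℤ} (h : n ∈ GD a b J1) :
    (J0 a b ≤ bi (mm a b) n ∧ bi (mm a b) n ≤ J1) ∧ n ∈ Dd (mm a b) (bi (mm a b) n) := by
  obtain ⟨j, hj, hn⟩ := mem_GD.1 h
  rw [bi_Dd (two_le_mm ha hb) (le_trans (one_le_J0 a b) hj.1) hn]
  exact ⟨hj, hn⟩

lemma GD_free {a b J1 : ℕ} (ha : 1 ≤ a) (hb : 1 ≤ b) {x y z : ℤ} (hx : x ∈ GD a b J1)
    (hy : y ∈ GD a b J1) (hz : z ∈ GD a b J1) (h : x + z = y + y) : x = y := by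
  obtain ⟨i, hi, hx⟩ := mem_GD.1 hx
  obtain ⟨j, hj, hy⟩ := mem_GD.1 hy
  obtain ⟨k, hk, hz⟩ := mem_GD.1 hz
  have h1 := one_le_J0 a b
  exact Dd_free (two_le_mm ha hb) (h1.trans hi.1) (h1.trans hj.1) (h1.trans hk.1) hx hy hz h

/-- the entries of an admissible tuple are pairwise distinct -/
lemma ent_inj {a b J1 : ℕ} (ha : 1 ≤ a) (hb : 1 ≤ b) {t : ℤ × (Fin a ⊕ Fin b → ℤ)}
    (h : Adm t) (hD : ent t ⊆ GD a b J1) :
    Function.Injective (fun q : Option (Fin a) × Option (Fin b) => xx t q.1 + kk t q.2) := by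
  rintro ⟨o1, o2⟩ ⟨o1', o2'⟩ hq
  simp only at hq
  by_cases h1 : o1 = o1'
  · subst h1
    have := kk_inj h (add_left_cancel hq)
    rw [this]
  · exfalso
    have hmem : ∀ q : Option (Fin a) × Option (Fin b), xx t q.1 + kk t q.2 ∈ GD a b J1 :=
      fun q => hD (Finset.mem_image_of_mem _ (Finset.mem_univ q))
    have h2 : o2 ≠ o2' := by
      intro h2
      subst h2
      exact h1 (xx_inj h (add_right_cancel hq))
    have e : (xx t o1 + kk t o2') + (xx t o1' + kk t o2) =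
        (xx t o1 + kk t o2) + (xx t o1 + kk t o2) := by
      linarith
    have := GD_free ha hb (hmem (o1, o2')) (hmem (o1, o2)) (hmem (o1', o2)) e
    exact h2 (kk_inj h (add_left_cancel this)).symm

lemma weight_le {a b J1 : ℕ} (ha : 1 ≤ a) (hb : 1 ≤ b) {t : ℤ × (Fin a ⊕ Fin b → ℤ)}
    (h : Adm t) (hD : ent t ⊆ GD a b J1) :
    ∏ n ∈ ent t, pp a b n ≤ ss a b t.1 ^ (a + b) * ∏ x, ss a b (t.2 x) ^ mm a b := by
  unfold ent
  rw [Finset.prod_image (fun x _ y _ hxy => ent_inj ha hb h hD hxy)]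
  rw [← Finset.univ_product_univ, Finset.prod_product, Fintype.prod_option]
  simp_rw [Fintype.prod_option, xx, kk, Option.elim, zero_add, sub_add_cancel]
  rw [Fintype.prod_sum_type]
  have h1 : ∀ (i : Fin a) (l : Fin b),
      pp a b (t.2 (Sum.inl i) - t.1 + t.2 (Sum.inr l)) ≤
        ss a b (t.2 (Sum.inl i)) ^ a * ss a b (t.2 (Sum.inr l)) ^ b := by
    intro i l
    unfold pp
    rw [pow_add]
    have hu := h.1 (Sum.inl i)
    have hv := h.1 (Sum.inr l)
    apply mul_le_mul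
    · apply pow_le_pow_left₀ (ss_pos _ _ _).le
      apply ss_anti
      omega
    · apply pow_le_pow_left₀ (ss_pos _ _ _).le
      apply ss_anti
      omega
    · exact pow_nonneg (ss_pos _ _ _).le _
    · exact pow_nonneg (ss_pos _ _ _).le _
  have h2 : ∏ i : Fin a, (pp a b (t.2 (Sum.inl i)) *
      ∏ l : Fin b, pp a b (t.2 (Sum.inl i) - t.1 + t.2 (Sum.inr l))) ≤
      ∏ i : Fin a, (pp a b (t.2 (Sum.inl i)) *
      ∏ l : Fin b, (ss a b (t.2 (Sum.inl i)) ^ a * ss a b (t.2 (Sum.inr l)) ^ b)) := by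
    apply Finset.prod_le_prod
    · intro i _
      apply mul_nonneg (pow_nonneg (ss_pos _ _ _).le _)
      exact Finset.prod_nonneg fun l _ => pow_nonneg (ss_pos _ _ _).le _
    · intro i _
      apply mul_le_mul_of_nonneg_left _ (pow_nonneg (ss_pos _ _ _).le _)
      exact Finset.prod_le_prod (fun l _ => pow_nonneg (ss_pos _ _ _).le _)
        (fun l _ => h1 i l)
  have h3 : ∏ i : Fin a, (pp a b (t.2 (Sum.inl i)) *
      ∏ l : Fin b, (ss a b (t.2 (Sum.inl i)) ^ a * ss a b (t.2 (Sum.inr l)) ^ b)) =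
      (∏ i : Fin a, ss a b (t.2 (Sum.inl i)) ^ mm a b) *
        ∏ l : Fin b, ss a b (t.2 (Sum.inr l)) ^ (a * b) := by
    simp_rw [Finset.prod_mul_distrib, Finset.prod_const, Finset.card_univ, Fintype.card_fin]
    rw [← mul_assoc, ← Finset.prod_mul_distrib]
    congr 1
    · refine Finset.prod_congr rfl fun i _ => ?_
      unfold pp mm
      rw [← pow_mul, ← pow_add]
      congr 1
      ring
    · rw [← Finset.prod_pow]
      refine Finset.prod_congr rfl fun l _ => ?_
      rw [← pow_mul, mul_comm]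
  calc (pp a b t.1 * ∏ l : Fin b, pp a b (t.2 (Sum.inr l))) *
        ∏ i : Fin a, (pp a b (t.2 (Sum.inl i)) *
          ∏ l : Fin b, pp a b (t.2 (Sum.inl i) - t.1 + t.2 (Sum.inr l)))
      ≤ (pp a b t.1 * ∏ l : Fin b, pp a b (t.2 (Sum.inr l))) *
        ((∏ i : Fin a, ss a b (t.2 (Sum.inl i)) ^ mm a b) *
        ∏ l : Fin b, ss a b (t.2 (Sum.inr l)) ^ (a * b)) := by
          rw [← h3]
          apply mul_le_mul_of_nonneg_left h2
          apply mul_nonneg (pow_nonneg (ss_pos _ _ _).le _)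
          exact Finset.prod_nonneg fun l _ => pow_nonneg (ss_pos _ _ _).le _
    _ = ss a b t.1 ^ (a + b) * ((∏ i : Fin a, ss a b (t.2 (Sum.inl i)) ^ mm a b) *
        ∏ l : Fin b, ss a b (t.2 (Sum.inr l)) ^ mm a b) := by
          have : ∏ l : Fin b, ss a b (t.2 (Sum.inr l)) ^ mm a b =
              (∏ l : Fin b, pp a b (t.2 (Sum.inr l))) *
                ∏ l : Fin b, ss a b (t.2 (Sum.inr l)) ^ (a * b) := by
            rw [← Finset.prod_mul_distrib]
            refine Finset.prod_congr rfl fun l _ => ?_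
            unfold pp mm
            rw [← pow_add]
            congr 1
            ring
          rw [this]
          unfold pp
          ring
    _ ≤ _ := le_refl _

end Pool.Agent.H388R3.Chg
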