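import Pool.Agent.H388R3.ChgExist

/-!
The infinite sequence, by compactness.
-/

namespace Pool.Agent.H388R3.Chg

open Finset Filter

/-- the guaranteed size of block `J` -/
noncomputable def BB (a b J : ℕ) : ℝ :=
  2 ^ (a * b * J ^ 2) * (1 / 2 : ℝ) ^ (C1 a b * J) / 16

open Classical in
theorem inf_exists {a b : ℕ} (ha : 1 ≤ a) (hb : 1 ≤ b) :
    ∃ A : Set ℤ, (∀ n ∈ A, 1 ≤ n) ∧
      (∀ t : ℤ × (Fin a ⊕ Fin b → ℤ), Adm t → ¬ (∀ n ∈ ent t, n ∈ A)) ∧
      ∀ J, J0 a b ≤ J → BB a b J ≤ (((Dd (mm a b) J).filter (fun n => n ∈ A)).card : ℝ) := by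
  choose F hF1 hF2 hF3 using fun J1 : ℕ => finite_exists ha hb J1
  set A : Set ℤ := {n | ∀ᶠ J1 in (hyperfilter ℕ : Filter ℕ), n ∈ F J1} with hA
  refine ⟨A, ?_, ?_, ?_⟩
  · intro n hn
    obtain ⟨J1, h⟩ := Filter.Eventually.exists (hn : ∀ᶠ J1 in (hyperfilter ℕ : Filter ℕ), n ∈ F J1)
    obtain ⟨j, hj, hnj⟩ := mem_GD.1 (hF1 J1 h)
    obtain ⟨x, _, _, rfl⟩ := mem_Dd hnj
    have : 1 ≤ Nn (mm a b) j := Nat.one_le_two_pow
    push_cast
    omega
  · intro t ht hcon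
    have : ∀ᶠ J1 in (hyperfilter ℕ : Filter ℕ), ∀ n ∈ ent t, n ∈ F J1 := by
      rw [Filter.eventually_all_finset]
      exact fun n hn => hcon n hn
    obtain ⟨J1, h⟩ := this.exists
    exact hF2 J1 t ht (fun n hn => h n hn)
  · intro J hJ
    have h1 : ∀ᶠ J1 in (hyperfilter ℕ : Filter ℕ), ∀ n ∈ Dd (mm a b) J, (n ∈ F J1 ↔ n ∈ A) := by
      rw [Filter.eventually_all_finset]
      intro n _
      by_cases hn : n ∈ A
      · have hn' : ∀ᶠ J1 in (hyperfilter ℕ : Filter ℕ), n ∈ F J1 := hn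
        filter_upwards [hn'] with J1 h
        exact ⟨fun _ => hn, fun _ => h⟩
      · have hn' : ∀ᶠ J1 in (hyperfilter ℕ : Filter ℕ), ¬ n ∈ F J1 :=
          Ultrafilter.eventually_not.2 hn
        filter_upwards [hn'] with J1 h
        exact ⟨fun h' => absurd h' h, fun h' => absurd h' hn⟩
    have h2 : ∀ᶠ J1 in (hyperfilter ℕ : Filter ℕ), J ≤ J1 := by
      have : (hyperfilter ℕ : Filter ℕ) ≤ atTop := by
        rw [← Nat.cofinite_eq_atTop]
        exact hyperfilter_le_cofinite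
      exact this (eventually_ge_atTop J)
    obtain ⟨J1, h3, h4⟩ := (h1.and h2).exists
    have h5 := hF3 J1 J (Finset.mem_Icc.2 ⟨hJ, h4⟩)
    have h6 : F J1 ∩ Dd (mm a b) J = (Dd (mm a b) J).filter (fun n => n ∈ A) := by
      ext n
      rw [Finset.mem_inter, Finset.mem_filter]
      constructor
      · rintro ⟨h7, h8⟩
        exact ⟨h8, (h3 n h8).1 h7⟩
      · rintro ⟨h7, h8⟩
        exact ⟨(h3 n h7).2 h8, h7⟩
    rw [h6] at h5
    exact h5

lemma Dd_bounds {m j : ℕ} (hm : 2 ≤ m) (hj : 1 ≤ j) {n : ℤ} (h : n ∈ Dd m j) :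
    ((2 ^ (m * j ^ 2) : ℕ) : ℤ) ≤ n ∧ n ≤ ((2 ^ (m * j ^ 2 + 1) : ℕ) : ℤ) := by
  obtain ⟨x, _, hx, rfl⟩ := mem_Dd h
  have h4 := four_Ln hm hj
  have e : Nn m j = 2 ^ (m * j ^ 2) := rfl
  have e2 : (2 ^ (m * j ^ 2 + 1) : ℕ) = 2 * Nn m j := by rw [pow_succ, e]; ring
  rw [e2, ← e]
  constructor
  · exact_mod_cast (by omega : Nn m j ≤ Nn m j + x)
  · exact_mod_cast (by omega : Nn m j + x ≤ 2 * Nn m j)

lemma BB_eq (a b J : ℕ) : BB a b J =
    (2 : ℝ) ^ (((a * b * J ^ 2 : ℕ) : ℝ) - ((C1 a b * J : ℕ) : ℝ) - 4) := by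
  unfold BB
  rw [Real.rpow_sub (by norm_num), Real.rpow_sub (by norm_num), Real.rpow_natCast,
    Real.rpow_natCast, one_div, inv_pow]
  norm_num
  rw [div_eq_mul_inv]

lemma BB_pos (a b J : ℕ) : 0 < BB a b J := by
  unfold BB; positivity

/-- growth -/
theorem growth {a b : ℕ} (ha : 1 ≤ a) (hb : 1 ≤ b) (A : Set ℤ)
    (hA : ∀ J, J0 a b ≤ J → ∃ S : Finset ℤ, (S : Set ℤ) ⊆ A ∧ S ⊆ Dd (mm a b) J ∧
      BB a b J ≤ (S.card : ℝ)) (ε : ℝ) (hε : 0 < ε) :
    ∀ᶠ n : ℕ in atTop, (n : ℝ) ^ (((a : ℝ) * b) / (a * b + (a + b)) - ε) ≤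
      ((A ∩ Set.Icc (1 : ℤ) (n : ℤ)).ncard : ℝ) := by
  set α : ℝ := ((a : ℝ) * b) / (a * b + (a + b)) with hα
  have ha' : (1 : ℝ) ≤ a := by exact_mod_cast ha
  have hb' : (1 : ℝ) ≤ b := by exact_mod_cast hb
  have hαpos : 0 < α := by positivity
  have hα1 : α ≤ 1 := by
    rw [hα, div_le_one (by positivity)]
    linarith
  set m := mm a b with hm
  have hmR : (m : ℝ) = a * b + (a + b) := by rw [hm]; unfold mm; push_cast; ring
  have hm2 : 2 ≤ m := two_le_mm ha hb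
  have hαm : α * m = a * b := by
    rw [hα, hmR]
    field_simp
  set δ : ℝ := min ε α with hδ
  have hδpos : 0 < δ := lt_min hε hαpos
  have hδα : δ ≤ α := min_le_right _ _
  have hδε : δ ≤ ε := min_le_left _ _
  -- choose the threshold
  obtain ⟨K, hK⟩ := exists_nat_gt ((2 * a * b + C1 a b + 5 : ℝ) / δ)
  set K' := max K (J0 a b) with hK'
  rw [eventually_atTop]
  refine ⟨2 ^ (m * K' ^ 2 + 1), fun n hn => ?_⟩
  have hn1 : 1 ≤ n := le_trans Nat.one_le_two_pow hn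
  have hn0 : n ≠ 0 := by omega
  set e := Nat.log 2 n with he
  have he1 : 2 ^ e ≤ n := Nat.pow_log_le_self 2 hn0
  have he2 : n < 2 ^ (e + 1) := Nat.lt_pow_succ_log_self (by norm_num) n
  set J := Nat.sqrt ((e - 1) / m) with hJ
  have heK : m * K' ^ 2 + 1 ≤ e := by
    rw [he]
    exact Nat.le_log_of_pow_le (by norm_num) hn
  have hJK : K' ≤ J := by
    rw [hJ, Nat.le_sqrt']
    rw [Nat.le_div_iff_mul_le (by omega)]
    rw [mul_comm]
    omega
  have hJ0 : J0 a b ≤ J := (le_max_right _ _).trans hJK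
  have hJ1 : 1 ≤ J := (one_le_J0 a b).trans hJ0
  have hJsq : m * J ^ 2 + 1 ≤ e := by
    have h1 : J ^ 2 ≤ (e - 1) / m := Nat.sqrt_le' _
    have h2 : J ^ 2 * m ≤ e - 1 := (Nat.le_div_iff_mul_le (by omega)).1 h1
    have h3 : m * J ^ 2 ≤ e - 1 := by rw [mul_comm]; exact h2
    omega
  have hJsq2 : e + 1 ≤ m * (J + 1) ^ 2 + 1 := by
    have h1 : (e - 1) / m < (J + 1) ^ 2 := Nat.lt_succ_sqrt' _
    have h2 : e - 1 < (J + 1) ^ 2 * m := (Nat.div_lt_iff_lt_mul (by omega)).1 h1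
    have h3 : e - 1 < m * (J + 1) ^ 2 := by rw [mul_comm]; exact h2
    omega
  -- the lower bound for the counting function
  obtain ⟨S, hSA, hSD, hSc⟩ := hA J hJ0
  have hcount : (S.card : ℝ) ≤ ((A ∩ Set.Icc (1 : ℤ) (n : ℤ)).ncard : ℝ) := by
    have hsub : (S : Set ℤ) ⊆ A ∩ Set.Icc (1 : ℤ) (n : ℤ) := by
      intro x hx
      refine ⟨hSA hx, ?_⟩
      obtain ⟨h1, h2⟩ := Dd_bounds hm2 hJ1 (hSD hx)
      constructor
      · refine le_trans ?_ h1
        exact_mod_cast Nat.one_le_two_pow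
      · refine h2.trans ?_
        have : 2 ^ (m * J ^ 2 + 1) ≤ n := (Nat.pow_le_pow_right (by norm_num) hJsq).trans he1
        exact_mod_cast this
    have hfin : (A ∩ Set.Icc (1 : ℤ) (n : ℤ)).Finite :=
      (Set.finite_Icc _ _).subset Set.inter_subset_right
    have := Set.ncard_le_ncard hsub hfin
    rw [Set.ncard_coe_finset] at this
    exact_mod_cast this
  refine le_trans ?_ (hSc.trans hcount)
  rw [BB_eq]
  have hnR : (1 : ℝ) ≤ n := by exact_mod_cast hn1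
  have hnlt : (n : ℝ) ≤ (2 : ℝ) ^ ((m * (J + 1) ^ 2 + 1 : ℕ) : ℝ) := by
    rw [Real.rpow_natCast]
    have : n ≤ 2 ^ (m * (J + 1) ^ 2 + 1) :=
      he2.le.trans (Nat.pow_le_pow_right (by norm_num) hJsq2)
    exact_mod_cast this
  calc (n : ℝ) ^ (α - ε) ≤ (n : ℝ) ^ (α - δ) :=
        Real.rpow_le_rpow_of_exponent_le hnR (by linarith)
    _ ≤ ((2 : ℝ) ^ ((m * (J + 1) ^ 2 + 1 : ℕ) : ℝ)) ^ (α - δ) :=
        Real.rpow_le_rpow (by positivity) hnlt (by linarith)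
    _ = (2 : ℝ) ^ (((m * (J + 1) ^ 2 + 1 : ℕ) : ℝ) * (α - δ)) := by
        rw [← Real.rpow_mul (by norm_num)]
    _ ≤ _ := by
        apply Real.rpow_le_rpow_of_exponent_le (by norm_num)
        push_cast
        have hKJ : ((2 * a * b + C1 a b + 5 : ℝ) / δ) < J := by
          refine hK.trans_le ?_
          exact_mod_cast (le_max_left _ _).trans hJK
        rw [div_lt_iff₀ hδpos] at hKJ
        set j : ℝ := (J : ℝ) with hj
        have hj1 : 1 ≤ j := by rw [hj]; exact_mod_cast hJ1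
        have hC1 : (0 : ℝ) ≤ (C1 a b : ℝ) := by positivity
        have hmm : (1 : ℝ) ≤ m := by exact_mod_cast (by omega : 1 ≤ m)
        have hab : (0 : ℝ) ≤ (a : ℝ) * b := by positivity
        have e1 : ((m : ℝ) * (j + 1) ^ 2 + 1) * (α - δ) =
            a * b * (j + 1) ^ 2 + α - δ * (m * (j + 1) ^ 2) - δ := by
          linear_combination ((j + 1) ^ 2) * hαm
        rw [e1]
        have e2 : (2 * a * b + C1 a b + 5 : ℝ) * (j + 1) ≤ δ * (m * (j + 1) ^ 2) := by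
          calc (2 * a * b + C1 a b + 5 : ℝ) * (j + 1) ≤ (j * δ) * (j + 1) := by
                apply mul_le_mul_of_nonneg_right hKJ.le (by linarith)
            _ ≤ ((j + 1) * δ) * (j + 1) := by
                apply mul_le_mul_of_nonneg_right _ (by linarith)
                nlinarith
            _ = δ * (1 * (j + 1) ^ 2) := by ring
            _ ≤ δ * (m * (j + 1) ^ 2) := by gcongr
        nlinarith

end Pool.Agent.H388R3.Chg
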