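import Mathlib

/-!
Random subsets of a finite set: independent selection with prescribed probabilities.
-/

namespace Pool.Agent.H388R3.Chg

open Finset

variable {α : Type*} [DecidableEq α]

/-- The probability of the outcome `S`. -/
noncomputable def wt (p : α → ℝ) (D S : Finset α) : ℝ := (∏ x ∈ S, p x) * ∏ x ∈ D \ S, (1 - p x)

lemma wt_nonneg (p : α → ℝ) (D S : Finset α) (hS : S ⊆ D) (h0 : ∀ x ∈ D, 0 ≤ p x)
    (h1 : ∀ x ∈ D, p x ≤ 1) : 0 ≤ wt p D S := by
  unfold wt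
  apply mul_nonneg
  · exact Finset.prod_nonneg fun x hx => h0 x (hS hx)
  · exact Finset.prod_nonneg fun x hx => by
      have := h1 x (Finset.mem_sdiff.1 hx).1
      linarith

lemma wt_subset (p : α → ℝ) (D T : Finset α) (hT : T ⊆ D) :
    ∑ S ∈ D.powerset, wt p D S * (if T ⊆ S then 1 else 0) = ∏ x ∈ T, p x := by
  have h := Finset.prod_add p (fun x => if x ∈ T then 0 else 1 - p x) D
  have h1 : ∏ x ∈ D, (p x + if x ∈ T then 0 else 1 - p x) = ∏ x ∈ T, p x := by
    rw [← Finset.prod_subset hT]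
    · refine Finset.prod_congr rfl fun x hx => ?_
      rw [if_pos hx, add_zero]
    · intro x _ hx
      rw [if_neg hx]
      ring
  rw [← h1, h]
  refine Finset.sum_congr rfl fun S hS => ?_
  unfold wt
  split_ifs with hTS
  · rw [mul_one]
    congr 1
    refine Finset.prod_congr rfl fun x hx => ?_
    rw [if_neg]
    intro hxT
    exact (Finset.mem_sdiff.1 hx).2 (hTS hxT)
  · rw [mul_zero]
    obtain ⟨x, hxT, hxS⟩ := Finset.not_subset.1 hTS
    symm
    rw [mul_eq_zero]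
    right
    apply Finset.prod_eq_zero (Finset.mem_sdiff.2 ⟨hT hxT, hxS⟩)
    rw [if_pos hxT]

lemma wt_sum (p : α → ℝ) (D : Finset α) : ∑ S ∈ D.powerset, wt p D S = 1 := by
  have := wt_subset p D ∅ (Finset.empty_subset _)
  simpa using this

lemma wt_cheb (p : α → ℝ) (D B : Finset α) (hB : B ⊆ D) :
    ∑ S ∈ D.powerset, wt p D S * (((S ∩ B).card : ℝ) - ∑ x ∈ B, p x) ^ 2 ≤ ∑ x ∈ B, p x := by
  set μ : ℝ := ∑ x ∈ B, p x with hμ
  have hcard : ∀ S : Finset α, ((S ∩ B).card : ℝ) = ∑ x ∈ B, (if ({x} : Finset α) ⊆ S then 1 else 0) := by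
    intro S
    rw [Finset.sum_ite, Finset.sum_const_zero, add_zero, Finset.sum_const, nsmul_eq_mul, mul_one]
    congr 2
    ext x
    simp [and_comm]
  have hcard2 : ∀ S : Finset α, ((S ∩ B).card : ℝ) ^ 2 =
      ∑ x ∈ B, ∑ y ∈ B, (if ({x, y} : Finset α) ⊆ S then 1 else 0) := by
    intro S
    rw [sq, hcard, Finset.sum_mul_sum]
    refine Finset.sum_congr rfl fun x _ => Finset.sum_congr rfl fun y _ => ?_
    by_cases hx : x ∈ S <;> by_cases hy : y ∈ S <;> simp [hx, hy, Finset.insert_subset_iff]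
  have e1 : ∑ S ∈ D.powerset, wt p D S * ((S ∩ B).card : ℝ) = μ := by
    simp_rw [hcard, Finset.mul_sum]
    rw [Finset.sum_comm, hμ]
    refine Finset.sum_congr rfl fun x hx => ?_
    rw [wt_subset p D {x} (by simpa using hB hx)]
    simp
  have e2 : ∑ S ∈ D.powerset, wt p D S * ((S ∩ B).card : ℝ) ^ 2 ≤ μ ^ 2 + μ := by
    simp_rw [hcard2, Finset.mul_sum]
    rw [Finset.sum_comm]
    have : ∀ x ∈ B, ∑ S ∈ D.powerset, ∑ y ∈ B, wt p D S *
        (if ({x, y} : Finset α) ⊆ S then 1 else 0) ≤ p x * μ + p x := by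
      intro x hx
      rw [Finset.sum_comm]
      have h3 : ∀ y ∈ B, ∑ S ∈ D.powerset, wt p D S *
          (if ({x, y} : Finset α) ⊆ S then 1 else 0) ≤ p x * p y + if y = x then p x else 0 := by
        intro y hy
        rw [wt_subset p D {x, y} (by
          intro z hz
          simp only [Finset.mem_insert, Finset.mem_singleton] at hz
          rcases hz with rfl | rfl
          · exact hB hx
          · exact hB hy)]
        by_cases hxy : y = x
        · subst hxy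
          simp [mul_self_nonneg]
        · rw [Finset.prod_pair (Ne.symm hxy), if_neg hxy, add_zero]
      refine (Finset.sum_le_sum h3).trans ?_
      rw [Finset.sum_add_distrib, ← Finset.mul_sum, Finset.sum_ite_eq', if_pos hx]
    refine (Finset.sum_le_sum this).trans ?_
    rw [Finset.sum_add_distrib, ← Finset.sum_mul, ← hμ]
    nlinarith
  have e0 := wt_sum p D
  have : ∀ S : Finset α, wt p D S * (((S ∩ B).card : ℝ) - μ) ^ 2 =
      wt p D S * ((S ∩ B).card : ℝ) ^ 2 - 2 * μ * (wt p D S * ((S ∩ B).card : ℝ)) +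
        μ ^ 2 * wt p D S := by
    intro S
    ring
  simp_rw [this]
  rw [Finset.sum_add_distrib, Finset.sum_sub_distrib, ← Finset.mul_sum, ← Finset.mul_sum, e0, e1]
  nlinarith

/-- The existence statement used in the deletion method. -/
theorem exists_good {ι τ : Type*} [DecidableEq τ] (p : α → ℝ) (D : Finset α)
    (h0 : ∀ x ∈ D, 0 ≤ p x) (h1 : ∀ x ∈ D, p x ≤ 1)
    (I : Finset ι) (B : ι → Finset α) (hB : ∀ i ∈ I, B i ⊆ D) (bad : ι → Finset τ)
    (ent : τ → Finset α) (hent : ∀ i ∈ I, ∀ t ∈ bad i, ent t ⊆ D)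
    (hpos : ∀ i ∈ I, 0 < ∑ x ∈ B i, p x)
    (hsum : ∑ i ∈ I, (4 / (∑ x ∈ B i, p x) +
      4 * (∑ t ∈ bad i, ∏ x ∈ ent t, p x) / (∑ x ∈ B i, p x)) < 1) :
    ∃ S ⊆ D, ∀ i ∈ I, (∑ x ∈ B i, p x) / 2 < ((S ∩ B i).card : ℝ) ∧
      (((bad i).filter (fun t => ent t ⊆ S)).card : ℝ) < (∑ x ∈ B i, p x) / 4 := by
  set μ : ι → ℝ := fun i => ∑ x ∈ B i, p x with hμ
  set Z : Finset α → ℝ := fun S => ∑ i ∈ I, (4 / (μ i) ^ 2 * (((S ∩ B i).card : ℝ) - μ i) ^ 2 +
    4 / μ i * (((bad i).filter (fun t => ent t ⊆ S)).card : ℝ)) with hZ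
  have hEZ : ∑ S ∈ D.powerset, wt p D S * Z S < 1 := by
    refine lt_of_le_of_lt ?_ hsum
    simp only [hZ, Finset.mul_sum]
    rw [Finset.sum_comm]
    refine Finset.sum_le_sum fun i hi => ?_
    have hμi : 0 < μ i := hpos i hi
    have : ∀ S : Finset α, wt p D S * (4 / (μ i) ^ 2 * (((S ∩ B i).card : ℝ) - μ i) ^ 2 +
        4 / μ i * (((bad i).filter (fun t => ent t ⊆ S)).card : ℝ)) =
        4 / (μ i) ^ 2 * (wt p D S * (((S ∩ B i).card : ℝ) - μ i) ^ 2) +
        4 / μ i * ∑ t ∈ bad i, wt p D S * (if ent t ⊆ S then 1 else 0) := by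
      intro S
      rw [← Finset.mul_sum, Finset.card_filter]
      push_cast
      ring
    simp_rw [this]
    rw [Finset.sum_add_distrib, ← Finset.mul_sum, ← Finset.mul_sum]
    apply add_le_add
    · have h := wt_cheb p D (B i) (hB i hi)
      calc 4 / (μ i) ^ 2 * ∑ S ∈ D.powerset, wt p D S * (((S ∩ B i).card : ℝ) - μ i) ^ 2
          ≤ 4 / (μ i) ^ 2 * μ i := by
            apply mul_le_mul_of_nonneg_left h (by positivity)
        _ = 4 / μ i := by field_simp
    · rw [Finset.sum_comm]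
      have : ∀ t ∈ bad i, ∑ S ∈ D.powerset, wt p D S * (if ent t ⊆ S then 1 else 0) =
          ∏ x ∈ ent t, p x := fun t ht => wt_subset p D _ (hent i hi t ht)
      rw [Finset.sum_congr rfl this]
      have e : (∑ t ∈ bad i, 4 * ∏ x ∈ ent t, p x) / ∑ x ∈ B i, p x =
          4 * (∑ t ∈ bad i, ∏ x ∈ ent t, p x) / μ i := by
        rw [← Finset.mul_sum]
      rw [e]
      apply le_of_eq
      ring
  have hex : ∃ S ∈ D.powerset, Z S < 1 := by
    by_contra hcon
    push Not at hcon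
    have : ∑ S ∈ D.powerset, wt p D S * 1 ≤ ∑ S ∈ D.powerset, wt p D S * Z S :=
      Finset.sum_le_sum fun S hS => mul_le_mul_of_nonneg_left (hcon S hS)
        (wt_nonneg p D S (Finset.mem_powerset.1 hS) h0 h1)
    simp only [mul_one, wt_sum] at this
    linarith
  obtain ⟨S, hS, hZS⟩ := hex
  refine ⟨S, Finset.mem_powerset.1 hS, fun i hi => ?_⟩
  have hμi : 0 < μ i := hpos i hi
  have hterm : 4 / (μ i) ^ 2 * (((S ∩ B i).card : ℝ) - μ i) ^ 2 +
    4 / μ i * (((bad i).filter (fun t => ent t ⊆ S)).card : ℝ) < 1 := by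
    refine lt_of_le_of_lt ?_ hZS
    exact Finset.single_le_sum (f := fun i => 4 / (μ i) ^ 2 * (((S ∩ B i).card : ℝ) - μ i) ^ 2 +
      4 / μ i * (((bad i).filter (fun t => ent t ⊆ S)).card : ℝ))
      (fun j hj => by
        have : 0 < μ j := hpos j hj
        positivity) hi
  have hA : 0 ≤ 4 / (μ i) ^ 2 * (((S ∩ B i).card : ℝ) - μ i) ^ 2 := by positivity
  have hC : 0 ≤ 4 / μ i * (((bad i).filter (fun t => ent t ⊆ S)).card : ℝ) := by positivity
  constructor
  · have h2 : 4 / (μ i) ^ 2 * (((S ∩ B i).card : ℝ) - μ i) ^ 2 < 1 := by linarith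
    have h3 : 4 * (((S ∩ B i).card : ℝ) - μ i) ^ 2 < (μ i) ^ 2 := by
      have : 4 / (μ i) ^ 2 * (((S ∩ B i).card : ℝ) - μ i) ^ 2 =
        (4 * (((S ∩ B i).card : ℝ) - μ i) ^ 2) / (μ i) ^ 2 := by ring
      rw [this, div_lt_one (by positivity)] at h2
      exact h2
    have h4 : (2 * (((S ∩ B i).card : ℝ) - μ i)) ^ 2 < (μ i) ^ 2 := by nlinarith
    have h5 := abs_lt_of_sq_lt_sq h4 hμi.le
    have h6 := (abs_lt.1 h5).1
    show μ i / 2 < _
    linarith
  · have h2 : 4 / μ i * (((bad i).filter (fun t => ent t ⊆ S)).card : ℝ) < 1 := by linarith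
    have h3 : 4 / μ i * (((bad i).filter (fun t => ent t ⊆ S)).card : ℝ) =
        (4 * (((bad i).filter (fun t => ent t ⊆ S)).card : ℝ)) / μ i := by ring
    rw [h3, div_lt_one hμi] at h2
    show _ < μ i / 4
    linarith

end Pool.Agent.H388R3.Chg
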