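import Pool.Agent.H388R3.ChgFinite

/-!
Estimates for the expected number of bad tuples.
-/

namespace Pool.Agent.H388R3.Chg

open Finset

lemma sum_le_sum_cover {α ι : Type*} [DecidableEq α] (s : Finset α) (I : Finset ι)
    (t : ι → Finset α) (F : α → ℝ) (hF : ∀ x, 0 ≤ F x) (hcov : ∀ x ∈ s, ∃ i ∈ I, x ∈ t i) :
    ∑ x ∈ s, F x ≤ ∑ i ∈ I, ∑ x ∈ t i, F x := by
  calc ∑ x ∈ s, F x ≤ ∑ x ∈ s, ∑ i ∈ I, (if x ∈ t i then F x else 0) := by
        refine Finset.sum_le_sum fun x hx => ?_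
        obtain ⟨i, hi, hxi⟩ := hcov x hx
        calc F x = (if x ∈ t i then F x else 0) := by rw [if_pos hxi]
          _ ≤ _ := Finset.single_le_sum (f := fun i => if x ∈ t i then F x else 0)
            (fun j _ => by split_ifs; exacts [hF x, le_refl _]) hi
    _ = ∑ i ∈ I, ∑ x ∈ s, (if x ∈ t i then F x else 0) := Finset.sum_comm
    _ ≤ ∑ i ∈ I, ∑ x ∈ t i, F x := by
        refine Finset.sum_le_sum fun i _ => ?_
        rw [← Finset.sum_filter]
        apply Finset.sum_le_sum_of_subset_of_nonneg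
        · intro x hx
          exact (Finset.mem_filter.1 hx).2
        · intro x _ _
          exact hF x

lemma half_sum (u v : ℕ) (hu : 1 ≤ u) : ∑ j ∈ Icc u v, (1 / 2 : ℝ) ^ j ≤ 1 := by
  have h1 : ∑ j ∈ Icc 1 v, (1 / 2 : ℝ) ^ j = 1 - (1 / 2) ^ v := by
    induction v with
    | zero => simp
    | succ n ih =>
      rw [Finset.sum_Icc_succ_top (by omega), ih, pow_succ]
      ring
  calc ∑ j ∈ Icc u v, (1 / 2 : ℝ) ^ j ≤ ∑ j ∈ Icc 1 v, (1 / 2 : ℝ) ^ j :=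
        Finset.sum_le_sum_of_subset_of_nonneg (Finset.Icc_subset_Icc_left hu)
          (fun _ _ _ => by positivity)
    _ ≤ 1 := by
        rw [h1]
        have : (0 : ℝ) ≤ (1 / 2) ^ v := by positivity
        linarith

lemma block_sum {a b j : ℕ} (ha : 1 ≤ a) (hb : 1 ≤ b) (hj : 1 ≤ j) (e : ℕ) :
    ∑ n ∈ Dd (mm a b) j, ss a b n ^ e ≤
      2 ^ (mm a b * j ^ 2) * (1 / 2 : ℝ) ^ (e * (j ^ 2 + kap a b * j)) := by
  have h1 : ∀ n ∈ Dd (mm a b) j, ss a b n ^ e = (1 / 2 : ℝ) ^ (e * (j ^ 2 + kap a b * j)) := by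
    intro n hn
    unfold ss
    rw [bi_Dd (two_le_mm ha hb) hj hn]
    unfold sj
    rw [← pow_mul, mul_comm]
  rw [Finset.sum_congr rfl h1, Finset.sum_const, nsmul_eq_mul]
  apply mul_le_mul_of_nonneg_right _ (by positivity)
  rw [Dd_card]
  have h2 : rothNumberNat (Ln (mm a b) j) ≤ 2 ^ (mm a b * j ^ 2) := by
    refine (rothNumberNat_le _).trans ?_
    unfold Ln
    exact Nat.pow_le_pow_right (by norm_num) (Nat.sub_le _ _)
  exact_mod_cast h2

/-- blocks up to `J` -/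
noncomputable def UU (a b J : ℕ) : Finset ℤ := (Icc (J0 a b) J).biUnion (Dd (mm a b))

lemma sum_UU {a b J : ℕ} (ha : 1 ≤ a) (hb : 1 ≤ b) (F : ℤ → ℝ) :
    ∑ n ∈ UU a b J, F n = ∑ j ∈ Icc (J0 a b) J, ∑ n ∈ Dd (mm a b) j, F n := by
  unfold UU
  rw [Finset.sum_biUnion]
  intro i hi j hj hij
  have h1 := one_le_J0 a b
  simp only [Finset.coe_Icc, Set.mem_Icc] at hi hj
  exact Dd_disj (two_le_mm ha hb) (h1.trans hi.1) (h1.trans hj.1) hij

lemma sigmaV {a b J : ℕ} (ha : 1 ≤ a) (hb : 1 ≤ b) (hJ : 1 ≤ J) :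
    ∑ n ∈ Dd (mm a b) J, ss a b n ^ mm a b ≤ (1 / 2 : ℝ) ^ (mm a b * kap a b * J) := by
  refine (block_sum ha hb hJ _).trans ?_
  rw [mul_add, pow_add, ← mul_assoc, ← mul_pow]
  norm_num
  rw [← mul_assoc]

lemma sigmaU {a b J : ℕ} (ha : 1 ≤ a) (hb : 1 ≤ b) :
    ∑ n ∈ UU a b J, ss a b n ^ mm a b ≤ 1 := by
  rw [sum_UU ha hb]
  refine le_trans (Finset.sum_le_sum (g := fun j => (1 / 2 : ℝ) ^ j) fun j hj => ?_)
    (half_sum _ _ (one_le_J0 a b))
  have hj1 : 1 ≤ j := (one_le_J0 a b).trans (Finset.mem_Icc.1 hj).1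
  refine (sigmaV ha hb hj1).trans ?_
  apply pow_le_pow_of_le_one (by norm_num) (by norm_num)
  have h1 : 1 ≤ mm a b * kap a b := by
    have := two_le_mm ha hb
    have : 1 ≤ kap a b := by unfold kap; omega
    nlinarith
  nlinarith

lemma sigmaZ {a b J : ℕ} (ha : 1 ≤ a) (hb : 1 ≤ b) :
    ∑ n ∈ UU a b J, ss a b n ^ (a + b) ≤ 2 ^ (a * b * J ^ 2) := by
  rw [sum_UU ha hb]
  have h : ∀ j ∈ Icc (J0 a b) J, ∑ n ∈ Dd (mm a b) j, ss a b n ^ (a + b) ≤
      2 ^ (a * b * J ^ 2) * (1 / 2 : ℝ) ^ j := by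
    intro j hj
    have hj' := Finset.mem_Icc.1 hj
    have hj1 : 1 ≤ j := (one_le_J0 a b).trans hj'.1
    refine (block_sum ha hb hj1 _).trans ?_
    have e : (2 : ℝ) ^ (mm a b * j ^ 2) * (1 / 2 : ℝ) ^ ((a + b) * (j ^ 2 + kap a b * j)) =
        2 ^ (a * b * j ^ 2) * (1 / 2 : ℝ) ^ ((a + b) * (kap a b * j)) := by
      unfold mm
      rw [add_mul, pow_add, mul_add, pow_add]
      have : (2 : ℝ) ^ ((a + b) * j ^ 2) * (1 / 2 : ℝ) ^ ((a + b) * j ^ 2) = 1 := by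
        rw [← mul_pow]
        norm_num
      calc _ = 2 ^ (a * b * j ^ 2) * (((2 : ℝ) ^ ((a + b) * j ^ 2) *
            (1 / 2 : ℝ) ^ ((a + b) * j ^ 2))) * (1 / 2 : ℝ) ^ ((a + b) * (kap a b * j)) := by ring
        _ = _ := by rw [this]; ring
    rw [e]
    apply mul_le_mul
    · apply pow_le_pow_right₀ (by norm_num)
      have : j ^ 2 ≤ J ^ 2 := Nat.pow_le_pow_left hj'.2 2
      exact Nat.mul_le_mul_left _ this
    · apply pow_le_pow_of_le_one (by norm_num) (by norm_num)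
      have : 1 ≤ kap a b := by unfold kap; omega
      have h2 : j ≤ kap a b * j := Nat.le_mul_of_pos_left _ this
      have h3 : kap a b * j ≤ (a + b) * (kap a b * j) := Nat.le_mul_of_pos_left _ (by omega)
      omega
    · positivity
    · positivity
  refine (Finset.sum_le_sum h).trans ?_
  rw [← Finset.mul_sum]
  calc (2 : ℝ) ^ (a * b * J ^ 2) * ∑ j ∈ Icc (J0 a b) J, (1 / 2 : ℝ) ^ j
      ≤ (2 : ℝ) ^ (a * b * J ^ 2) * 1 := by
        apply mul_le_mul_of_nonneg_left (half_sum _ _ (one_le_J0 a b)) (by positivity)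
    _ = _ := mul_one _

open Classical in
/-- bad tuples whose largest block is `J` -/
noncomputable def bad (a b J1 J : ℕ) : Finset (ℤ × (Fin a ⊕ Fin b → ℤ)) :=
  ((GD a b J1) ×ˢ (Fintype.piFinset (fun _ : Fin a ⊕ Fin b => GD a b J1))).filter
    (fun t => Adm t ∧ ent t ⊆ GD a b J1 ∧ (∀ x, bi (mm a b) (t.2 x) ≤ J) ∧
      ∃ x, bi (mm a b) (t.2 x) = J)

lemma bad_sum {a b J1 J : ℕ} (ha : 1 ≤ a) (hb : 1 ≤ b) (hJ : J0 a b ≤ J) :
    ∑ t ∈ bad a b J1 J, ∏ n ∈ ent t, pp a b n ≤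
      (a + b) * (2 ^ (a * b * J ^ 2) * (1 / 2 : ℝ) ^ (mm a b * kap a b * J)) := by
  classical
  have hJ1 : 1 ≤ J := (one_le_J0 a b).trans hJ
  set TT : (Fin a ⊕ Fin b) → (Fin a ⊕ Fin b) → Finset ℤ := fun x0 x =>
    if x = x0 then Dd (mm a b) J else UU a b J with hTT
  set F : ℤ × (Fin a ⊕ Fin b → ℤ) → ℝ := fun t =>
    ss a b t.1 ^ (a + b) * ∏ x, ss a b (t.2 x) ^ mm a b with hF
  have step1 : ∑ t ∈ bad a b J1 J, ∏ n ∈ ent t, pp a b n ≤ ∑ t ∈ bad a b J1 J, F t := by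
    refine Finset.sum_le_sum fun t ht => ?_
    unfold bad at ht
    obtain ⟨_, h1, h2, _⟩ := Finset.mem_filter.1 ht
    exact weight_le ha hb h1 h2
  have hmemU : ∀ n, n ∈ GD a b J1 → bi (mm a b) n ≤ J → n ∈ UU a b J := by
    intro n hn hb'
    obtain ⟨h1, h2⟩ := bi_GD ha hb hn
    unfold UU
    rw [Finset.mem_biUnion]
    exact ⟨_, Finset.mem_Icc.2 ⟨h1.1, hb'⟩, h2⟩
  have step2 : ∑ t ∈ bad a b J1 J, F t ≤
      ∑ x0 : Fin a ⊕ Fin b, ∑ t ∈ (UU a b J) ×ˢ (Fintype.piFinset (TT x0)), F t := by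
    apply sum_le_sum_cover
    · intro t
      simp only [hF]
      apply mul_nonneg (pow_nonneg (ss_pos _ _ _).le _)
      exact Finset.prod_nonneg fun x _ => pow_nonneg (ss_pos _ _ _).le _
    · intro t ht
      unfold bad at ht
      obtain ⟨hmem, h1, h2, h3, x0, h4⟩ := Finset.mem_filter.1 ht
      rw [Finset.mem_product, Fintype.mem_piFinset] at hmem
      refine ⟨x0, Finset.mem_univ _, ?_⟩
      rw [Finset.mem_product, Fintype.mem_piFinset]
      refine ⟨?_, ?_⟩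
      · apply hmemU _ hmem.1
        exact (bi_mono _ (h1.1 x0).le).trans (h3 x0)
      · intro x
        simp only [hTT]
        split_ifs with hx
        · subst hx
          have := (bi_GD ha hb (hmem.2 x)).2
          rwa [h4] at this
        · exact hmemU _ (hmem.2 x) (h3 x)
  have step3 : ∀ x0 : Fin a ⊕ Fin b, ∑ t ∈ (UU a b J) ×ˢ (Fintype.piFinset (TT x0)), F t ≤
      2 ^ (a * b * J ^ 2) * (1 / 2 : ℝ) ^ (mm a b * kap a b * J) := by
    intro x0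
    rw [Finset.sum_product]
    simp only [hF]
    simp_rw [← Finset.mul_sum]
    rw [← Finset.sum_mul]
    have e : ∑ f ∈ Fintype.piFinset (TT x0), ∏ x, ss a b (f x) ^ mm a b =
        ∏ x, ∑ n ∈ TT x0 x, ss a b n ^ mm a b := by
      rw [Finset.prod_univ_sum]
    rw [e, ← Finset.mul_prod_erase _ _ (Finset.mem_univ x0)]
    have h1 : ∑ n ∈ TT x0 x0, ss a b n ^ mm a b ≤ (1 / 2 : ℝ) ^ (mm a b * kap a b * J) := by
      simp only [hTT, if_true]
      exact sigmaV ha hb hJ1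
    have h2 : ∏ x ∈ univ.erase x0, ∑ n ∈ TT x0 x, ss a b n ^ mm a b ≤ 1 := by
      apply Finset.prod_le_one
      · intro x _
        exact Finset.sum_nonneg fun n _ => pow_nonneg (ss_pos _ _ _).le _
      · intro x hx
        simp only [hTT, if_neg (Finset.ne_of_mem_erase hx)]
        exact sigmaU ha hb
    have h3 := sigmaZ (J := J) ha hb
    have h4 : 0 ≤ ∏ x ∈ univ.erase x0, ∑ n ∈ TT x0 x, ss a b n ^ mm a b :=
      Finset.prod_nonneg fun x _ => Finset.sum_nonneg fun n _ => pow_nonneg (ss_pos _ _ _).le _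
    have h5 : 0 ≤ ∑ n ∈ TT x0 x0, ss a b n ^ mm a b :=
      Finset.sum_nonneg fun n _ => pow_nonneg (ss_pos _ _ _).le _
    calc (∑ n ∈ UU a b J, ss a b n ^ (a + b)) * ((∑ n ∈ TT x0 x0, ss a b n ^ mm a b) *
          ∏ x ∈ univ.erase x0, ∑ n ∈ TT x0 x, ss a b n ^ mm a b)
        ≤ 2 ^ (a * b * J ^ 2) * ((1 / 2 : ℝ) ^ (mm a b * kap a b * J) * 1) := by
          gcongr
      _ = _ := by ring
  refine step1.trans (step2.trans ((Finset.sum_le_sum fun x0 _ => step3 x0).trans ?_))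
  rw [Finset.sum_const, Finset.card_univ, Fintype.card_sum, Fintype.card_fin, Fintype.card_fin,
    nsmul_eq_mul]
  push_cast
  exact le_refl _

lemma mu_ge {a b J : ℕ} (ha : 1 ≤ a) (hb : 1 ≤ b) (hJ : J0 a b ≤ J) :
    2 ^ (a * b * J ^ 2) * (1 / 2 : ℝ) ^ (C1 a b * J) / 4 ≤ ∑ n ∈ Dd (mm a b) J, pp a b n := by
  have hJ1 : 1 ≤ J := (one_le_J0 a b).trans hJ
  have h1 : ∀ n ∈ Dd (mm a b) J, pp a b n = (1 / 2 : ℝ) ^ ((a + b) * (J ^ 2 + kap a b * J)) := by
    intro n hn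
    unfold pp ss
    rw [bi_Dd (two_le_mm ha hb) hJ1 hn]
    unfold sj
    rw [← pow_mul, mul_comm]
  rw [Finset.sum_congr rfl h1, Finset.sum_const, nsmul_eq_mul]
  have h2 := Dd_card_ge (j := J) (two_le_mm ha hb) hJ1
  have h3 : (Ln (mm a b) J : ℝ) = 2 ^ (mm a b * J ^ 2) / 4 := by
    have := four_Ln (j := J) (two_le_mm ha hb) hJ1
    unfold Nn at this
    have h4 : (4 : ℝ) * (Ln (mm a b) J : ℝ) = 2 ^ (mm a b * J ^ 2) := by exact_mod_cast this
    linarith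
  rw [h3] at h2
  calc (2 : ℝ) ^ (a * b * J ^ 2) * (1 / 2 : ℝ) ^ (C1 a b * J) / 4
      = (2 ^ (mm a b * J ^ 2) / 4 * (1 / 2 : ℝ) ^ (6 * mm a b * J)) *
          (1 / 2 : ℝ) ^ ((a + b) * (J ^ 2 + kap a b * J)) := by
        unfold C1
        have e1 : (2 : ℝ) ^ (mm a b * J ^ 2) = 2 ^ (a * b * J ^ 2) * 2 ^ ((a + b) * J ^ 2) := by
          unfold mm
          rw [add_mul, pow_add]
        have e2 : (1 / 2 : ℝ) ^ ((a + b) * (J ^ 2 + kap a b * J)) =
            (1 / 2 : ℝ) ^ ((a + b) * J ^ 2) * (1 / 2 : ℝ) ^ ((a + b) * kap a b * J) := by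
          rw [← pow_add]
          congr 1
          ring
        have e3 : (1 / 2 : ℝ) ^ ((6 * mm a b + (a + b) * kap a b) * J) =
            (1 / 2 : ℝ) ^ (6 * mm a b * J) * (1 / 2 : ℝ) ^ ((a + b) * kap a b * J) := by
          rw [← pow_add]
          congr 1
          ring
        have e4 : (2 : ℝ) ^ ((a + b) * J ^ 2) * (1 / 2 : ℝ) ^ ((a + b) * J ^ 2) = 1 := by
          rw [← mul_pow]
          norm_num
        rw [e1, e2, e3]
        generalize (2 : ℝ) ^ (a * b * J ^ 2) = A at *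
        generalize (2 : ℝ) ^ ((a + b) * J ^ 2) = B at *
        generalize (1 / 2 : ℝ) ^ ((a + b) * J ^ 2) = B' at *
        generalize (1 / 2 : ℝ) ^ (6 * mm a b * J) = P at *
        generalize (1 / 2 : ℝ) ^ ((a + b) * kap a b * J) = Q at *
        linear_combination (-(A * P * Q / 4)) * e4
    _ ≤ _ := by
        apply mul_le_mul_of_nonneg_right h2 (by positivity)

end Pool.Agent.H388R3.Chg
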