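import Pool.Agent.H388R3.CornersFourier

/-!
Counting corners in the set `{(x,y) : φ(x) φ(y) φ(x+y) = -1}`.
-/

namespace Pool.Agent.H388R3.Corners

open Finset

noncomputable section

variable {N : ℕ} [NeZero N]

/-- Fourier sum of a real function. -/
def FR (φ : ZMod N → ℝ) (r : ZMod N) : ℂ := FS (fun x => (φ x : ℂ)) r

lemma FR_zero (φ : ZMod N → ℝ) : FR φ 0 = ((∑ x, φ x : ℝ) : ℂ) := by
  unfold FR FS
  simp

lemma FR_parseval (φ : ZMod N → ℝ) (hφ : ∀ x, φ x ^ 2 = 1) :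
    ∑ r : ZMod N, ‖FR φ r‖ ^ 2 = (N : ℝ) ^ 2 := by
  unfold FR
  rw [parseval]
  have : ∀ x : ZMod N, ‖((φ x : ℝ) : ℂ)‖ ^ 2 = 1 := by
    intro x
    rw [Complex.norm_real, Real.norm_eq_abs, sq_abs, hφ]
  simp_rw [this]
  simp [ZMod.card]
  ring

lemma FR_le (φ : ZMod N → ℝ) (hφ : ∀ x, φ x ^ 2 = 1) (r : ZMod N) : ‖FR φ r‖ ≤ N := by
  have h := FR_parseval φ hφ
  have h1 : ‖FR φ r‖ ^ 2 ≤ (N : ℝ) ^ 2 := by
    rw [← h]
    exact Finset.single_le_sum (f := fun r => ‖FR φ r‖ ^ 2) (fun _ _ => by positivity)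
      (Finset.mem_univ r)
  exact le_of_sq_le_sq h1 (by positivity)

/-- The twisted trilinear sum. -/
def TT (φ : ZMod N → ℝ) (r s : ZMod N) : ℂ :=
  ∑ x : ZMod N, ∑ y : ZMod N, ((φ x * φ y * φ (x + y) : ℝ) : ℂ) *
    ZMod.stdAddChar (r * x + s * y)

lemma TT_eq (φ : ZMod N → ℝ) (r s : ZMod N) :
    (N : ℂ) * TT φ r s = ∑ q : ZMod N, FR φ q * (FR φ (r - q) * FR φ (s - q)) := by
  have h := trilinear (fun x => (φ x : ℂ) * ZMod.stdAddChar (r * x))
    (fun x => (φ x : ℂ) * ZMod.stdAddChar (s * x)) (fun x => (φ x : ℂ))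
  have e1 : ∀ (t q : ZMod N), FS (fun x => (φ x : ℂ) * ZMod.stdAddChar (t * x)) (-q) =
      FR φ (t - q) := by
    intro t q
    unfold FR FS
    refine Finset.sum_congr rfl fun x _ => ?_
    rw [mul_assoc, ← AddChar.map_add_eq_mul]
    congr 2
    ring
  simp_rw [e1] at h
  unfold FR at h ⊢
  rw [h]
  unfold TT
  congr 1
  refine Finset.sum_congr rfl fun x _ => Finset.sum_congr rfl fun y _ => ?_
  rw [AddChar.map_add_eq_mul]
  push_cast
  ring

lemma TT_bound (φ : ZMod N → ℝ) (hφ : ∀ x, φ x ^ 2 = 1) {η : ℝ} (hη0 : 0 ≤ η)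
    (hη : ∀ r : ZMod N, r ≠ 0 → ‖FR φ r‖ ≤ η * N) (r s : ZMod N) :
    ‖(N : ℂ) * TT φ r s - FR φ 0 * (FR φ r * FR φ s)‖ ≤ η * (N : ℝ) ^ 3 := by
  rw [TT_eq, ← Finset.add_sum_erase _ _ (Finset.mem_univ (0 : ZMod N))]
  simp only [sub_zero]
  rw [add_sub_cancel_left]
  calc ‖∑ q ∈ univ.erase (0 : ZMod N), FR φ q * (FR φ (r - q) * FR φ (s - q))‖
      ≤ ∑ q ∈ univ.erase (0 : ZMod N), ‖FR φ q * (FR φ (r - q) * FR φ (s - q))‖ :=
        norm_sum_le _ _
    _ ≤ ∑ q ∈ univ.erase (0 : ZMod N),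
          (η * N) * ((‖FR φ (r - q)‖ ^ 2 + ‖FR φ (s - q)‖ ^ 2) / 2) := by
        refine Finset.sum_le_sum fun q hq => ?_
        rw [norm_mul, norm_mul]
        have h1 := hη q (Finset.ne_of_mem_erase hq)
        have h2 : ‖FR φ (r - q)‖ * ‖FR φ (s - q)‖ ≤
            (‖FR φ (r - q)‖ ^ 2 + ‖FR φ (s - q)‖ ^ 2) / 2 := by
          nlinarith [sq_nonneg (‖FR φ (r - q)‖ - ‖FR φ (s - q)‖)]
        exact mul_le_mul h1 h2 (by positivity) (by positivity)
    _ ≤ ∑ q : ZMod N, (η * N) * ((‖FR φ (r - q)‖ ^ 2 + ‖FR φ (s - q)‖ ^ 2) / 2) := by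
        refine Finset.sum_le_sum_of_subset_of_nonneg (Finset.erase_subset _ _) ?_
        intro q _ _
        positivity
    _ = η * (N : ℝ) ^ 3 := by
        rw [← Finset.mul_sum, ← Finset.sum_div, Finset.sum_add_distrib]
        have e : ∀ t : ZMod N, ∑ q : ZMod N, ‖FR φ (t - q)‖ ^ 2 = (N : ℝ) ^ 2 := by
          intro t
          rw [← FR_parseval φ hφ]
          exact (Equiv.subLeft t).sum_comp (fun q => ‖FR φ q‖ ^ 2)
        rw [e, e]
        ring

/-- Autocorrelation. -/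
def AC (φ : ZMod N → ℝ) (d : ZMod N) : ℝ := ∑ x : ZMod N, φ x * φ (x + d)

lemma FS_AC (φ : ZMod N → ℝ) (r : ZMod N) :
    FS (fun d => (AC φ d : ℂ)) r = FR φ r * FR φ (-r) := by
  unfold FR FS AC
  rw [Finset.sum_mul_sum]
  have : ∀ d : ZMod N, ((∑ x : ZMod N, φ x * φ (x + d) : ℝ) : ℂ) * ZMod.stdAddChar (r * d) =
      ∑ x : ZMod N, (φ (x + d) : ℂ) * ZMod.stdAddChar (r * (x + d)) *
        ((φ x : ℂ) * ZMod.stdAddChar (-r * x)) := by
    intro d
    push_cast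
    rw [Finset.sum_mul]
    refine Finset.sum_congr rfl fun x _ => ?_
    have : (ZMod.stdAddChar (r * d) : ℂ) =
        ZMod.stdAddChar (r * (x + d)) * ZMod.stdAddChar (-r * x) := by
      rw [← AddChar.map_add_eq_mul]
      congr 1
      ring
    rw [this]
    ring
  simp_rw [this]
  rw [Finset.sum_comm]
  rw [Finset.sum_comm (s := univ) (t := univ) (f := fun x y => (φ x : ℂ) *
    ZMod.stdAddChar (r * x) * ((φ y : ℂ) * ZMod.stdAddChar (-r * y)))]
  refine Finset.sum_congr rfl fun x _ => ?_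
  exact Equiv.sum_comp (Equiv.addLeft x) (fun y => (φ y : ℂ) * ZMod.stdAddChar (r * y) *
    ((φ x : ℂ) * ZMod.stdAddChar (-r * x)))

lemma AC_bound (φ : ZMod N → ℝ) (hφ : ∀ x, φ x ^ 2 = 1) {η : ℝ} 
    (hη : ∀ r : ZMod N, r ≠ 0 → ‖FR φ r‖ ≤ η * N) :
    (N : ℝ) * ∑ d : ZMod N, AC φ d ^ 2 ≤ (∑ x, φ x) ^ 4 + η ^ 2 * (N : ℝ) ^ 4 := by
  have h := parseval (fun d => (AC φ d : ℂ))
  simp_rw [FS_AC, Complex.norm_real, Real.norm_eq_abs, sq_abs] at h
  rw [← h, ← Finset.add_sum_erase _ _ (Finset.mem_univ (0 : ZMod N))]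
  apply add_le_add
  · rw [neg_zero, FR_zero, norm_mul, Complex.norm_real, Real.norm_eq_abs, ← sq, ← pow_mul]
    rw [show 2 * 2 = 4 by norm_num, Even.pow_abs (by decide : Even 4)]
  · calc ∑ q ∈ univ.erase (0 : ZMod N), ‖FR φ q * FR φ (-q)‖ ^ 2
        ≤ ∑ q ∈ univ.erase (0 : ZMod N), ‖FR φ q‖ ^ 2 * (η * N) ^ 2 := by
          refine Finset.sum_le_sum fun q hq => ?_
          rw [norm_mul, mul_pow]
          have h1 := hη (-q) (neg_ne_zero.2 (Finset.ne_of_mem_erase hq))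
          gcongr
      _ ≤ ∑ q : ZMod N, ‖FR φ q‖ ^ 2 * (η * N) ^ 2 :=
          Finset.sum_le_sum_of_subset_of_nonneg (Finset.erase_subset _ _)
            (fun _ _ _ => by positivity)
      _ = η ^ 2 * (N : ℝ) ^ 4 := by
          rw [← Finset.sum_mul, FR_parseval φ hφ]
          ring

/-- real trilinear sum -/
def T0 (φ : ZMod N → ℝ) : ℝ := ∑ x : ZMod N, ∑ y : ZMod N, φ x * φ y * φ (x + y)

lemma TT_zero (φ : ZMod N → ℝ) : TT φ 0 0 = (T0 φ : ℂ) := by
  unfold TT T0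
  simp

lemma T0_bound (φ : ZMod N → ℝ) (hφ : ∀ x, φ x ^ 2 = 1) {η : ℝ} (hη0 : 0 ≤ η)
    (hη : ∀ r : ZMod N, r ≠ 0 → ‖FR φ r‖ ≤ η * N) :
    |(N : ℝ) * T0 φ - (∑ x, φ x) ^ 3| ≤ η * (N : ℝ) ^ 3 := by
  have h := TT_bound φ hφ hη0 hη 0 0
  rw [TT_zero, FR_zero] at h
  have e : (N : ℂ) * (T0 φ : ℂ) - ((∑ x, φ x : ℝ) : ℂ) * (((∑ x, φ x : ℝ) : ℂ) *
      ((∑ x, φ x : ℝ) : ℂ)) = (((N : ℝ) * T0 φ - (∑ x, φ x) ^ 3 : ℝ) : ℂ) := by
    push_cast
    ring
  rw [e, Complex.norm_real, Real.norm_eq_abs] at h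
  exact h

/-- The key expansion of the number of corners. -/
lemma corner_sum (φ : ZMod N → ℝ) (hφ : ∀ x, φ x ^ 2 = 1) (hN : Odd N) :
    ∑ x : ZMod N, ∑ y : ZMod N, ∑ d : ZMod N,
      (1 - φ x * φ y * φ (x + y)) * (1 - φ (x + d) * φ y * φ (x + d + y)) *
        (1 - φ x * φ (y + d) * φ (x + (y + d))) =
      (N : ℝ) ^ 3 - 3 * N * T0 φ + 3 * ∑ d : ZMod N, AC φ d ^ 2 - (∑ x, φ x) ^ 3 := by
  have hexp : ∀ x y d : ZMod N,
      (1 - φ x * φ y * φ (x + y)) * (1 - φ (x + d) * φ y * φ (x + d + y)) *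
        (1 - φ x * φ (y + d) * φ (x + (y + d))) =
      1 - φ x * φ y * φ (x + y) - φ (x + d) * φ y * φ (x + d + y) -
        φ x * φ (y + d) * φ (x + (y + d)) +
        (φ x * φ (x + d)) * (φ (x + y) * φ (x + y + d)) +
        (φ y * φ (y + d)) * (φ (y + x) * φ (y + x + d)) +
        (φ x * φ (x + d)) * (φ y * φ (y + d)) -
        φ (x + d) * φ (y + d) * φ (x + y) := by
    intro x y d
    have e1 : x + d + y = x + y + d := by ring
    have e2 : x + (y + d) = x + y + d := by ring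
    have e3 : y + x = x + y := by ring
    rw [e1, e2, e3]
    have h1 := hφ x
    have h2 := hφ y
    have h3 := hφ (x + y + d)
    generalize φ x = a at *
    generalize φ y = b at *
    generalize φ (x + y) = c at *
    generalize φ (x + y + d) = c' at *
    generalize φ (x + d) = a' at *
    generalize φ (y + d) = b' at *
    linear_combination (c * c' * a * a') * h2 + (b * b' * c * c') * h1 + (a * a' * b * b') * h3
      - (a' * b' * c * b ^ 2 * c' ^ 2) * h1 - (a' * b' * c * c' ^ 2) * h2 - (a' * b' * c) * h3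
  simp_rw [hexp, Finset.sum_sub_distrib, Finset.sum_add_distrib, Finset.sum_sub_distrib]
  have s0 : ∑ x : ZMod N, ∑ y : ZMod N, ∑ d : ZMod N, (1 : ℝ) = (N : ℝ) ^ 3 := by
    simp [ZMod.card]; ring
  have s1 : ∑ x : ZMod N, ∑ y : ZMod N, ∑ d : ZMod N, φ x * φ y * φ (x + y) = N * T0 φ := by
    unfold T0
    simp [ZMod.card, Finset.mul_sum]
  have s2 : ∑ x : ZMod N, ∑ y : ZMod N, ∑ d : ZMod N, φ (x + d) * φ y * φ (x + d + y) =
      N * T0 φ := by
    have : ∀ x : ZMod N, ∑ y : ZMod N, ∑ d : ZMod N, φ (x + d) * φ y * φ (x + d + y) =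
        T0 φ := by
      intro x
      rw [Finset.sum_comm]
      exact Equiv.sum_comp (Equiv.addLeft x) (fun z => ∑ y : ZMod N, φ z * φ y * φ (z + y))
    simp_rw [this]
    simp [ZMod.card]
  have s3 : ∑ x : ZMod N, ∑ y : ZMod N, ∑ d : ZMod N, φ x * φ (y + d) * φ (x + (y + d)) =
      N * T0 φ := by
    have : ∀ x : ZMod N, ∑ y : ZMod N, ∑ d : ZMod N, φ x * φ (y + d) * φ (x + (y + d)) =
        N * ∑ y : ZMod N, φ x * φ y * φ (x + y) := by
      intro x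
      have : ∀ y : ZMod N, ∑ d : ZMod N, φ x * φ (y + d) * φ (x + (y + d)) =
          ∑ z : ZMod N, φ x * φ z * φ (x + z) := fun y =>
        Equiv.sum_comp (Equiv.addLeft y) (fun z => φ x * φ z * φ (x + z))
      simp_rw [this]
      simp [ZMod.card]
    simp_rw [this]
    rw [← Finset.mul_sum]
    rfl
  have s4 : ∑ x : ZMod N, ∑ y : ZMod N, ∑ d : ZMod N,
      (φ x * φ (x + d)) * (φ (x + y) * φ (x + y + d)) = ∑ d : ZMod N, AC φ d ^ 2 := by
    have : ∀ x : ZMod N, ∑ y : ZMod N, ∑ d : ZMod N,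
        (φ x * φ (x + d)) * (φ (x + y) * φ (x + y + d)) =
        ∑ d : ZMod N, (φ x * φ (x + d)) * AC φ d := by
      intro x
      rw [Finset.sum_comm]
      refine Finset.sum_congr rfl fun d _ => ?_
      rw [← Finset.mul_sum]
      congr 1
      exact Equiv.sum_comp (Equiv.addLeft x) (fun z => φ z * φ (z + d))
    simp_rw [this]
    rw [Finset.sum_comm]
    refine Finset.sum_congr rfl fun d _ => ?_
    rw [← Finset.sum_mul, sq]
    rfl
  have s5 : ∑ x : ZMod N, ∑ y : ZMod N, ∑ d : ZMod N,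
      (φ y * φ (y + d)) * (φ (y + x) * φ (y + x + d)) = ∑ d : ZMod N, AC φ d ^ 2 := by
    rw [Finset.sum_comm]
    exact s4
  have s6 : ∑ x : ZMod N, ∑ y : ZMod N, ∑ d : ZMod N,
      (φ x * φ (x + d)) * (φ y * φ (y + d)) = ∑ d : ZMod N, AC φ d ^ 2 := by
    have : ∀ x : ZMod N, ∑ y : ZMod N, ∑ d : ZMod N,
        (φ x * φ (x + d)) * (φ y * φ (y + d)) =
        ∑ d : ZMod N, (φ x * φ (x + d)) * AC φ d := by
      intro x
      rw [Finset.sum_comm]
      refine Finset.sum_congr rfl fun d _ => ?_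
      rw [← Finset.mul_sum]
      rfl
    simp_rw [this]
    rw [Finset.sum_comm]
    refine Finset.sum_congr rfl fun d _ => ?_
    rw [← Finset.sum_mul, sq]
    rfl
  have s7 : ∑ x : ZMod N, ∑ y : ZMod N, ∑ d : ZMod N, φ (x + d) * φ (y + d) * φ (x + y) =
      (∑ x, φ x) ^ 3 := by
    have h2 : IsUnit (2 : ZMod N) := by
      have h3 : IsUnit ((2 : ℕ) : ZMod N) := (ZMod.isUnit_iff_coprime 2 N).2
        ((Nat.coprime_two_left).2 hN)
      exact_mod_cast h3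
    have e1 : ∑ x : ZMod N, ∑ y : ZMod N, ∑ d : ZMod N, φ (x + d) * φ (y + d) * φ (x + y) =
        ∑ d : ZMod N, ∑ x : ZMod N, ∑ y : ZMod N, φ x * φ y * φ (x + y - 2 * d) := by
      have : ∀ d : ZMod N, ∑ x : ZMod N, ∑ y : ZMod N, φ x * φ y * φ (x + y - 2 * d) =
          ∑ x : ZMod N, ∑ y : ZMod N, φ (x + d) * φ (y + d) * φ (x + y) := by
        intro d
        rw [← Equiv.sum_comp (Equiv.addRight d) (fun x => ∑ y : ZMod N, φ x * φ y * φ (x + y - 2 * d))]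
        refine Finset.sum_congr rfl fun x _ => ?_
        rw [← Equiv.sum_comp (Equiv.addRight d)
          (fun y => φ ((Equiv.addRight d) x) * φ y * φ ((Equiv.addRight d) x + y - 2 * d))]
        refine Finset.sum_congr rfl fun y _ => ?_
        simp only [Equiv.coe_addRight]
        congr 2
        ring
      simp_rw [this]
      have : ∀ x : ZMod N, ∑ y : ZMod N, ∑ d : ZMod N, φ (x + d) * φ (y + d) * φ (x + y) =
          ∑ d : ZMod N, ∑ y : ZMod N, φ (x + d) * φ (y + d) * φ (x + y) := fun x =>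
        Finset.sum_comm
      simp_rw [this]
      rw [Finset.sum_comm]
    rw [e1, Finset.sum_comm]
    have e2 : ∀ x : ZMod N, ∑ d : ZMod N, ∑ y : ZMod N, φ x * φ y * φ (x + y - 2 * d) =
        φ x * ((∑ y, φ y) * ∑ z, φ z) := by
      intro x
      rw [Finset.sum_comm]
      have : ∀ y : ZMod N, ∑ d : ZMod N, φ x * φ y * φ (x + y - 2 * d) =
          φ x * φ y * ∑ z, φ z := by
        intro y
        rw [← Finset.mul_sum]
        congr 1
        obtain ⟨u, hu⟩ := h2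
        have := ((u.mulLeft).trans (Equiv.subLeft (x + y))).sum_comp φ
        rw [← this]
        refine Finset.sum_congr rfl fun d _ => ?_
        simp [hu]
      simp_rw [this]
      rw [← Finset.sum_mul, ← Finset.mul_sum]
      ring
    simp_rw [e2]
    rw [← Finset.sum_mul]
    ring
  rw [s0, s1, s2, s3, s4, s5, s6, s7]
  ring

end

end Pool.Agent.H388R3.Corners
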