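import Mathlib

/-!
Fourier analysis on `ZMod N` needed for the corner construction.
-/

namespace Pool.Agent.H388R3.Corners

open Finset

noncomputable section

variable {N : ℕ} [NeZero N]

/-- Fourier sum. -/
def FS (f : ZMod N → ℂ) (r : ZMod N) : ℂ := ∑ x : ZMod N, f x * ZMod.stdAddChar (r * x)

lemma sum_char (b : ZMod N) :
    ∑ x : ZMod N, (ZMod.stdAddChar (x * b) : ℂ) = if b = 0 then (N : ℂ) else 0 := by
  rw [AddChar.sum_mulShift _ (ZMod.isPrimitive_stdAddChar N), ZMod.card]
  split_ifs <;> simp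

lemma parseval (f : ZMod N → ℂ) :
    ∑ r : ZMod N, ‖FS f r‖ ^ 2 = N * ∑ x, ‖f x‖ ^ 2 := by
  have key : ∑ r : ZMod N, FS f r * (starRingEnd ℂ) (FS f r) =
      N * ∑ x, f x * (starRingEnd ℂ) (f x) := by
    have e1 : ∀ r : ZMod N, FS f r * (starRingEnd ℂ) (FS f r) =
        ∑ x : ZMod N, ∑ y : ZMod N, f x * (starRingEnd ℂ) (f y) *
          ZMod.stdAddChar (r * (x - y)) := by
      intro r
      unfold FS
      rw [map_sum, Finset.sum_mul_sum]
      refine Finset.sum_congr rfl fun x _ => Finset.sum_congr rfl fun y _ => ?_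
      rw [map_mul (starRingEnd ℂ), ← AddChar.map_neg_eq_conj]
      have : (ZMod.stdAddChar (r * (x - y)) : ℂ) =
          ZMod.stdAddChar (r * x) * ZMod.stdAddChar (-(r * y)) := by
        rw [← AddChar.map_add_eq_mul]
        congr 1
        ring
      rw [this]
      ring
    simp_rw [e1]
    rw [Finset.sum_comm]
    have e2 : ∀ x : ZMod N, ∑ r : ZMod N, ∑ y : ZMod N, f x * (starRingEnd ℂ) (f y) *
          ZMod.stdAddChar (r * (x - y)) = N * (f x * (starRingEnd ℂ) (f x)) := by
      intro x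
      rw [Finset.sum_comm]
      simp_rw [← Finset.mul_sum, sum_char]
      rw [Finset.sum_eq_single x]
      · simp; ring
      · intro y _ hy
        rw [if_neg (sub_ne_zero.2 (Ne.symm hy)), mul_zero]
      · intro h; exact absurd (Finset.mem_univ _) h
    simp_rw [e2]
    rw [Finset.mul_sum]
  have h1 : ((∑ r : ZMod N, ‖FS f r‖ ^ 2 : ℝ) : ℂ) = ((N * ∑ x, ‖f x‖ ^ 2 : ℝ) : ℂ) := by
    push_cast
    rw [← (by
      simp_rw [Complex.mul_conj'] at key
      exact key : (∑ r : ZMod N, (‖FS f r‖ : ℂ) ^ 2 = N * ∑ x, (‖f x‖ : ℂ) ^ 2))]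
  exact_mod_cast h1

lemma trilinear (f g h : ZMod N → ℂ) :
    ∑ r : ZMod N, FS h r * (FS f (-r) * FS g (-r)) =
      N * ∑ x : ZMod N, ∑ y : ZMod N, f x * g y * h (x + y) := by
  have e1 : ∀ r : ZMod N, FS h r * (FS f (-r) * FS g (-r)) =
      ∑ x : ZMod N, ∑ y : ZMod N, ∑ z : ZMod N, f x * g y * h z *
          ZMod.stdAddChar (r * (z - (x + y))) := by
    intro r
    unfold FS
    rw [Finset.sum_mul_sum, Finset.mul_sum]
    refine Finset.sum_congr rfl fun x _ => ?_
    rw [Finset.mul_sum]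
    refine Finset.sum_congr rfl fun y _ => ?_
    rw [Finset.sum_mul]
    refine Finset.sum_congr rfl fun z _ => ?_
    have : (ZMod.stdAddChar (r * (z - (x + y))) : ℂ) =
        ZMod.stdAddChar (r * z) * (ZMod.stdAddChar (-r * x) * ZMod.stdAddChar (-r * y)) := by
      rw [← AddChar.map_add_eq_mul, ← AddChar.map_add_eq_mul]
      congr 1
      ring
    rw [this]
    ring
  simp_rw [e1]
  rw [Finset.sum_comm, Finset.mul_sum]
  refine Finset.sum_congr rfl fun x _ => ?_
  rw [Finset.sum_comm, Finset.mul_sum]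
  refine Finset.sum_congr rfl fun y _ => ?_
  rw [Finset.sum_comm]
  simp_rw [← Finset.mul_sum, sum_char]
  rw [Finset.sum_eq_single (x + y)]
  · simp; ring
  · intro z _ hz
    rw [if_neg (sub_ne_zero.2 hz), mul_zero]
  · intro h; exact absurd (Finset.mem_univ _) h

end

end Pool.Agent.H388R3.Corners
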