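import Pool.Agent.H388R3.CornersCount

/-!
An explicit uniform function with values `±1` and prescribed mean on `ZMod (m * m)`.
-/

namespace Pool.Agent.H388R3.Corners

open Finset

noncomputable section

variable {m : ℕ} [hm : Fact m.Prime]

instance : NeZero (m * m) := ⟨Nat.mul_ne_zero hm.out.ne_zero hm.out.ne_zero⟩

/-- Digits. -/
def jj (p : ZMod m × ZMod m) : ZMod (m * m) := ((p.1.val + m * p.2.val : ℕ) : ZMod (m * m))

lemma jj_lt (p : ZMod m × ZMod m) : p.1.val + m * p.2.val < m * m := by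
  have h1 := ZMod.val_lt p.1
  have h2 := ZMod.val_lt p.2
  calc p.1.val + m * p.2.val < m + m * p.2.val := by omega
    _ = m * (p.2.val + 1) := by ring
    _ ≤ m * m := Nat.mul_le_mul_left _ h2

lemma jj_val (p : ZMod m × ZMod m) : (jj p).val = p.1.val + m * p.2.val :=
  ZMod.val_natCast_of_lt (jj_lt p)

/-- The function. -/
def ph (w : ZMod m → ℝ) (x : ZMod (m * m)) : ℝ :=
  w (((x.val % m : ℕ) : ZMod m) * ((x.val / m : ℕ) : ZMod m))

lemma ph_jj (w : ZMod m → ℝ) (p : ZMod m × ZMod m) : ph w (jj p) = w (p.1 * p.2) := by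
  unfold ph
  rw [jj_val]
  have h1 := ZMod.val_lt p.1
  have hm0 : 0 < m := hm.out.pos
  rw [Nat.add_mul_mod_self_left, Nat.mod_eq_of_lt h1, Nat.add_mul_div_left _ _ hm0,
    Nat.div_eq_of_lt h1, zero_add, ZMod.natCast_zmod_val, ZMod.natCast_zmod_val]

lemma jj_bij : Function.Bijective (jj (m := m)) := by
  rw [Fintype.bijective_iff_injective_and_card]
  constructor
  · intro p q h
    have h1 : (jj p).val = (jj q).val := by rw [h]
    rw [jj_val, jj_val] at h1
    have hm0 : 0 < m := hm.out.pos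
    have hp := ZMod.val_lt p.1
    have hq := ZMod.val_lt q.1
    have e1 : p.1.val = q.1.val := by
      have := congrArg (· % m) h1
      simpa [Nat.add_mul_mod_self_left, Nat.mod_eq_of_lt hp, Nat.mod_eq_of_lt hq] using this
    have e2 : p.2.val = q.2.val := by
      rw [e1] at h1
      exact Nat.eq_of_mul_eq_mul_left hm0 (by omega)
    exact Prod.ext (ZMod.val_injective m e1) (ZMod.val_injective m e2)
  · simp [ZMod.card]

lemma sum_jj {M : Type*} [AddCommMonoid M] (f : ZMod (m * m) → M) :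
    ∑ x : ZMod (m * m), f x = ∑ a : ZMod m, ∑ b : ZMod m, f (jj (a, b)) := by
  rw [← Fintype.sum_prod_type', ← Function.Bijective.sum_comp jj_bij]

lemma char_mul (k : ℕ) : (ZMod.stdAddChar (((m * k : ℕ)) : ZMod (m * m)) : ℂ) =
    ZMod.stdAddChar ((k : ℕ) : ZMod m) := by
  have h1 := ZMod.stdAddChar_coe (N := m * m) ((m * k : ℕ) : ℤ)
  have h2 := ZMod.stdAddChar_coe (N := m) ((k : ℕ) : ℤ)
  rw [Int.cast_natCast] at h1 h2
  rw [h1, h2]
  congr 1
  have : (m : ℂ) ≠ 0 := by exact_mod_cast hm.out.ne_zero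
  push_cast
  field_simp

/-- inner sum -/
def GG (w : ZMod m → ℝ) (q a : ZMod m) : ℂ := ∑ b : ZMod m, (w (a * b) : ℂ) *
  ZMod.stdAddChar (q * b)

lemma FR_ph (w : ZMod m → ℝ) (r : ZMod (m * m)) :
    FR (ph w) r = ∑ a : ZMod m, ZMod.stdAddChar (r * ((a.val : ℕ) : ZMod (m * m))) *
      GG w ((r.val : ℕ) : ZMod m) a := by
  unfold FR FS GG
  rw [sum_jj]
  refine Finset.sum_congr rfl fun a _ => ?_
  rw [Finset.mul_sum]
  refine Finset.sum_congr rfl fun b _ => ?_
  simp only [ph_jj]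
  have e1 : r * jj (a, b) = r * ((a.val : ℕ) : ZMod (m * m)) +
      ((m * (r.val * b.val) : ℕ) : ZMod (m * m)) := by
    unfold jj
    push_cast
    rw [ZMod.natCast_zmod_val r]
    ring
  rw [e1, AddChar.map_add_eq_mul, char_mul]
  have e2 : ((r.val * b.val : ℕ) : ZMod m) = ((r.val : ℕ) : ZMod m) * b := by
    push_cast
    rw [ZMod.natCast_zmod_val b]
  rw [e2]
  ring

lemma GG_eq (w : ZMod m → ℝ) (q a : ZMod m) (ha : a ≠ 0) :
    GG w q a = FS (fun t => (w t : ℂ)) (q * a⁻¹) := by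
  unfold GG FS
  rw [← Equiv.sum_comp (Equiv.mulLeft₀ a ha) (fun t => (w t : ℂ) *
    (ZMod.stdAddChar (q * a⁻¹ * t) : ℂ))]
  refine Finset.sum_congr rfl fun b _ => ?_
  simp only [Equiv.mulLeft₀_apply]
  congr 2
  field_simp

lemma FR_ph_bound (w : ZMod m → ℝ) (hw : ∀ t, w t ^ 2 = 1) (r : ZMod (m * m)) (hr : r ≠ 0) :
    ‖FR (ph w) r‖ ^ 2 ≤ 4 * (m : ℝ) ^ 3 := by
  have hm0 : 0 < m := hm.out.pos
  have hm1 : (1 : ℝ) ≤ m := by exact_mod_cast hm0
  have hpars : ∑ k : ZMod m, ‖FS (fun t => (w t : ℂ)) k‖ ^ 2 = (m : ℝ) ^ 2 := by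
    have := FR_parseval w hw
    exact this
  rw [FR_ph]
  by_cases hq : ((r.val : ℕ) : ZMod m) = 0
  · -- `m` divides `r`
    rw [ZMod.natCast_eq_zero_iff] at hq
    obtain ⟨s, hs⟩ := hq
    have hs0 : (s : ZMod m) ≠ 0 := by
      intro h
      rw [ZMod.natCast_eq_zero_iff] at h
      obtain ⟨u, hu⟩ := h
      apply hr
      have : r.val = 0 := by
        have h1 := ZMod.val_lt r
        rw [hs, hu] at h1
        rcases Nat.eq_zero_or_pos u with h | h
        · rw [hs, hu, h]; simp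
        · exfalso
          have : m * m * 1 ≤ m * m * u := Nat.mul_le_mul_left _ h
          have : m * (m * u) = m * m * u := by ring
          omega
      exact (ZMod.val_eq_zero r).1 this
    have hq' : ((r.val : ℕ) : ZMod m) = 0 := by rw [hs]; simp
    rw [hq']
    set W : ℂ := ∑ t : ZMod m, (w t : ℂ) with hW
    have hGa : ∀ a : ZMod m, a ≠ 0 → GG w 0 a = W := by
      intro a ha
      rw [GG_eq w 0 a ha]
      unfold FS
      simp [hW]
    have hG0 : GG w 0 0 = m * w 0 := by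
      unfold GG
      simp [ZMod.card]
    have hchar : ∀ a : ZMod m, (ZMod.stdAddChar (r * ((a.val : ℕ) : ZMod (m * m))) : ℂ) =
        ZMod.stdAddChar (a * (s : ZMod m)) := by
      intro a
      have : r * ((a.val : ℕ) : ZMod (m * m)) = ((m * (a.val * s) : ℕ) : ZMod (m * m)) := by
        have h1 : r = ((r.val : ℕ) : ZMod (m * m)) := (ZMod.natCast_zmod_val r).symm
        rw [h1, hs]
        push_cast
        ring
      rw [this, char_mul]
      congr 1
      push_cast
      rw [ZMod.natCast_zmod_val a]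
    have hsum : ∑ a : ZMod m, (ZMod.stdAddChar (r * ((a.val : ℕ) : ZMod (m * m))) : ℂ) *
        GG w 0 a = (m * w 0 - W) := by
      have : ∀ a : ZMod m, (ZMod.stdAddChar (r * ((a.val : ℕ) : ZMod (m * m))) : ℂ) *
        GG w 0 a = ZMod.stdAddChar (a * (s : ZMod m)) * W +
          if a = 0 then (m * w 0 - W) else 0 := by
        intro a
        rw [hchar]
        split_ifs with h
        · rw [h, hG0]; simp
        · rw [hGa a h]; simp
      simp_rw [this]
      rw [Finset.sum_add_distrib, ← Finset.sum_mul, sum_char, if_neg hs0]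
      simp
    rw [hsum]
    have hw1 : ∀ t, ‖((w t : ℝ) : ℂ)‖ = 1 := by
      intro t
      rw [Complex.norm_real, Real.norm_eq_abs]
      have := hw t
      rw [← sq_abs] at this
      nlinarith [abs_nonneg (w t)]
    have h1 : ‖(m * w 0 - W : ℂ)‖ ≤ 2 * m := by
      calc ‖(m * w 0 - W : ℂ)‖ ≤ ‖(m * w 0 : ℂ)‖ + ‖W‖ := norm_sub_le _ _
        _ ≤ m + m := by
          apply add_le_add
          · rw [norm_mul, hw1]; simp
          · rw [hW]
            calc ‖∑ t : ZMod m, (w t : ℂ)‖ ≤ ∑ t : ZMod m, ‖(w t : ℂ)‖ := norm_sum_le _ _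
              _ = m := by
                rw [Finset.sum_congr rfl (fun t _ => hw1 t)]
                simp [ZMod.card]
        _ = 2 * m := by ring
    calc ‖(m * w 0 - W : ℂ)‖ ^ 2 ≤ (2 * m) ^ 2 := by gcongr
      _ = 4 * (m : ℝ) ^ 2 * 1 := by ring
      _ ≤ 4 * (m : ℝ) ^ 2 * m := by gcongr
      _ = 4 * (m : ℝ) ^ 3 := by ring
  · set q : ZMod m := ((r.val : ℕ) : ZMod m) with hqdef
    have h1 : ‖∑ a : ZMod m, ZMod.stdAddChar (r * ((a.val : ℕ) : ZMod (m * m))) * GG w q a‖ ≤
        ∑ a : ZMod m, ‖GG w q a‖ := by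
      refine (norm_sum_le _ _).trans (le_of_eq ?_)
      refine Finset.sum_congr rfl fun a _ => ?_
      rw [norm_mul, AddChar.norm_apply, one_mul]
    have hG0 : GG w q 0 = 0 := by
      unfold GG
      simp_rw [zero_mul, ← Finset.mul_sum, mul_comm q]
      rw [sum_char, if_neg hq, mul_zero]
    have h2 : ∑ a : ZMod m, ‖GG w q a‖ ^ 2 ≤ (m : ℝ) ^ 2 := by
      rw [← hpars, ← Finset.add_sum_erase _ _ (Finset.mem_univ (0 : ZMod m)), hG0]
      simp only [norm_zero, ne_eq, OfNat.ofNat_ne_zero, not_false_eq_true, zero_pow, zero_add]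
      have hinj : Set.InjOn (fun a : ZMod m => q * a⁻¹) ((univ.erase (0 : ZMod m) :
          Finset (ZMod m)) : Set (ZMod m)) := by
        intro a _ b _ h
        simp only at h
        exact inv_injective (mul_left_cancel₀ hq h)
      calc ∑ a ∈ univ.erase (0 : ZMod m), ‖GG w q a‖ ^ 2
          = ∑ a ∈ univ.erase (0 : ZMod m), ‖FS (fun t => (w t : ℂ)) (q * a⁻¹)‖ ^ 2 := by
            refine Finset.sum_congr rfl fun a ha => ?_
            rw [GG_eq w q a (Finset.ne_of_mem_erase ha)]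
        _ = ∑ k ∈ (univ.erase (0 : ZMod m)).image (fun a => q * a⁻¹),
              ‖FS (fun t => (w t : ℂ)) k‖ ^ 2 := by
            rw [Finset.sum_image hinj]
        _ ≤ ∑ k : ZMod m, ‖FS (fun t => (w t : ℂ)) k‖ ^ 2 :=
            Finset.sum_le_sum_of_subset_of_nonneg (Finset.subset_univ _)
              (fun _ _ _ => by positivity)
    have h3 : (∑ a : ZMod m, ‖GG w q a‖) ^ 2 ≤ m * ∑ a : ZMod m, ‖GG w q a‖ ^ 2 := by
      have := sq_sum_le_card_mul_sum_sq (s := (univ : Finset (ZMod m)))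
        (f := fun a => ‖GG w q a‖)
      simpa [ZMod.card] using this
    calc ‖∑ a : ZMod m, ZMod.stdAddChar (r * ((a.val : ℕ) : ZMod (m * m))) * GG w q a‖ ^ 2
        ≤ (∑ a : ZMod m, ‖GG w q a‖) ^ 2 := by gcongr
      _ ≤ m * ∑ a : ZMod m, ‖GG w q a‖ ^ 2 := h3
      _ ≤ m * (m : ℝ) ^ 2 := by gcongr
      _ = (m : ℝ) ^ 3 := by ring
      _ ≤ 4 * (m : ℝ) ^ 3 := by
        have : (0 : ℝ) ≤ (m : ℝ) ^ 3 := by positivity
        linarith

/-- the weight -/
def ww (k : ℕ) (t : ZMod m) : ℝ := if t.val < k then -1 else 1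

omit hm in
lemma ww_sq (k : ℕ) (t : ZMod m) : ww k t ^ 2 = 1 := by
  unfold ww
  split_ifs <;> norm_num

lemma sum_ww (k : ℕ) (hk : k ≤ m) : ∑ t : ZMod m, ww k t = m - 2 * k := by
  have h1 : ∀ t : ZMod m, ww k t = 1 - 2 * (if t.val < k then 1 else 0) := by
    intro t
    unfold ww
    split_ifs <;> norm_num
  simp_rw [h1]
  rw [Finset.sum_sub_distrib, ← Finset.mul_sum]
  have h2 : ∑ t : ZMod m, (if t.val < k then (1 : ℝ) else 0) = k := by
    rw [Finset.sum_ite, Finset.sum_const_zero, add_zero, Finset.sum_const, nsmul_eq_mul, mul_one]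
    congr 1
    have : (univ.filter (fun t : ZMod m => t.val < k)) =
        (Finset.range k).image (fun i : ℕ => (i : ZMod m)) := by
      ext t
      simp only [Finset.mem_filter, Finset.mem_univ, true_and, Finset.mem_image,
        Finset.mem_range]
      constructor
      · intro h
        exact ⟨t.val, h, ZMod.natCast_zmod_val t⟩
      · rintro ⟨i, hi, rfl⟩
        rw [ZMod.val_natCast_of_lt (by omega)]
        exact hi
    rw [this, Finset.card_image_of_injOn, Finset.card_range]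
    intro i hi j hj h
    simp only [Finset.coe_range, Set.mem_Iio] at hi hj
    have := congrArg ZMod.val h
    simp only at this
    rwa [ZMod.val_natCast_of_lt (by omega), ZMod.val_natCast_of_lt (by omega)] at this
  rw [h2]
  simp [ZMod.card]

lemma sum_ph (w : ZMod m → ℝ) :
    ∑ x : ZMod (m * m), ph w x = m * w 0 + (m - 1) * ∑ t, w t := by
  rw [sum_jj]
  simp_rw [ph_jj]
  rw [← Finset.add_sum_erase _ _ (Finset.mem_univ (0 : ZMod m))]
  have h1 : ∑ b : ZMod m, w (0 * b) = m * w 0 := by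
    simp [ZMod.card]
  have h2 : ∀ a ∈ univ.erase (0 : ZMod m), ∑ b : ZMod m, w (a * b) = ∑ t, w t := by
    intro a ha
    exact Equiv.sum_comp (Equiv.mulLeft₀ a (Finset.ne_of_mem_erase ha)) w
  rw [h1, Finset.sum_congr rfl h2, Finset.sum_const, Finset.card_erase_of_mem (Finset.mem_univ _),
    Finset.card_univ, ZMod.card, nsmul_eq_mul, Nat.cast_sub hm.out.pos]
  simp

/-- For every tolerance `t > 0` and every `M` there are an odd `N ≥ M` and a function with values
`±1` on `ZMod N` whose mean is `1/5` up to `t` and whose nontrivial Fourier coefficients are at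
most `t`. -/
theorem exists_phi (t : ℝ) (ht : 0 < t) (M : ℕ) : ∃ N : ℕ, M ≤ N ∧ Odd N ∧ ∃ _ : NeZero N,
    ∃ φ : ZMod N → ℝ, (∀ x, φ x ^ 2 = 1) ∧ (∀ r : ZMod N, r ≠ 0 → ‖FR φ r‖ ≤ t * N) ∧
      |(∑ x, φ x) - N / 5| ≤ t * N := by
  obtain ⟨B, hB⟩ := exists_nat_gt (4 / t ^ 2 + 4 / t)
  obtain ⟨p, hp, hprime⟩ := Nat.exists_infinite_primes (max (max B M) 3)
  have : Fact p.Prime := ⟨hprime⟩
  have hp3 : 3 ≤ p := le_trans (le_max_right _ _) hp
  have hpM : M ≤ p := le_trans (le_trans (le_max_right _ _) (le_max_left _ _)) hp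
  have hpB : B ≤ p := le_trans (le_trans (le_max_left _ _) (le_max_left _ _)) hp
  have hpB' : 4 / t ^ 2 + 4 / t < p := lt_of_lt_of_le hB (by exact_mod_cast hpB)
  have hodd : Odd p := hprime.odd_of_ne_two (by omega)
  have hp0 : (0 : ℝ) < p := by exact_mod_cast hprime.pos
  have h4 : 4 / t ^ 2 < p := by
    have : 0 < 4 / t := by positivity
    linarith
  have h4' : 4 / t < p := by
    have : 0 < 4 / t ^ 2 := by positivity
    linarith
  rw [div_lt_iff₀ (by positivity)] at h4 h4'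
  refine ⟨p * p, hpM.trans (Nat.le_mul_of_pos_left p hprime.pos), hodd.mul hodd, inferInstance,
    ph (ww (2 * p / 5)), fun x => ww_sq _ _, ?_, ?_⟩
  · intro r hr
    have h1 := FR_ph_bound (ww (2 * p / 5)) (ww_sq _) r hr
    have h2 : 4 * (p : ℝ) ^ 3 ≤ (t * ((p * p : ℕ) : ℝ)) ^ 2 := by
      push_cast
      calc 4 * (p : ℝ) ^ 3 ≤ (p * t ^ 2) * (p : ℝ) ^ 3 := by
            have : 0 < (p : ℝ) ^ 3 := by positivity
            nlinarith
        _ = (t * (p * p)) ^ 2 := by ring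
    exact le_of_sq_le_sq (h1.trans h2) (by positivity)
  · rw [sum_ph, sum_ww _ (by omega)]
    have hk1 : ((2 * p / 5 : ℕ) : ℝ) ≤ 2 * p / 5 := by
      have := @Nat.cast_div_le ℝ _ _ _ (2 * p) 5
      push_cast at this
      exact this
    have hk2 : (2 * p / 5 : ℝ) - 1 ≤ ((2 * p / 5 : ℕ) : ℝ) := by
      have h : 2 * p < 5 * (2 * p / 5) + 5 := by omega
      have h' : (2 * p : ℝ) < 5 * ((2 * p / 5 : ℕ) : ℝ) + 5 := by exact_mod_cast h
      linarith
    have hw0 : |(ww (2 * p / 5) (0 : ZMod p))| = 1 := by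
      have := ww_sq (2 * p / 5) (0 : ZMod p)
      rw [← sq_abs] at this
      nlinarith [abs_nonneg (ww (2 * p / 5) (0 : ZMod p))]
    obtain ⟨hw1, hw2⟩ := abs_le.1 hw0.le
    set w0 := ww (2 * p / 5) (0 : ZMod p)
    set k : ℝ := ((2 * p / 5 : ℕ) : ℝ)
    push_cast
    rw [abs_le]
    have hp3' : (3 : ℝ) ≤ p := by exact_mod_cast hp3
    have ht' : 4 * p ≤ t * (p * p) := by nlinarith
    constructor <;> nlinarith

end

end Pool.Agent.H388R3.Corners
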