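import Mathlib
import Pool.Agent.Helper244.Br.Final
set_option autoImplicit false
namespace Pool.H388R3.WB
open Finset Matrix

/-- fractional knapsack with unit capacities -/
theorem knap {ι : Type} [DecidableEq ι] (U : Finset ι) (w c : ι → ℝ)
    (hw : ∀ e, 0 ≤ w e) (hc1 : ∀ e ∈ U, c e ≤ 1) (K : ℕ) (hK : K ≤ U.card)
    (hcK : ∑ e ∈ U, max (c e) 0 ≤ K) :
    ∃ P : Finset ι, P ⊆ U ∧ P.card = K ∧ ∑ e ∈ U, w e * c e ≤ ∑ e ∈ P, w e := by
  classical
  have hne : (U.powersetCard K).Nonempty := Finset.powersetCard_nonempty.2 hK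
  obtain ⟨P, hP, hPm⟩ := Finset.exists_max_image (U.powersetCard K) (fun P => ∑ e ∈ P, w e) hne
  rw [Finset.mem_powersetCard] at hP
  obtain ⟨hPU, hPc⟩ := hP
  refine ⟨P, hPU, hPc, ?_⟩
  have hswap : ∀ e ∈ P, ∀ f ∈ U \ P, w f ≤ w e := by
    intro e he f hf
    rw [Finset.mem_sdiff] at hf
    have hfn : f ∉ P.erase e := fun h => hf.2 (Finset.mem_of_mem_erase h)
    have hm : insert f (P.erase e) ∈ U.powersetCard K := by
      rw [Finset.mem_powersetCard]
      constructor
      · intro x hx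
        rcases Finset.mem_insert.1 hx with rfl | hx
        · exact hf.1
        · exact hPU (Finset.mem_of_mem_erase hx)
      · rw [Finset.card_insert_of_notMem hfn, Finset.card_erase_of_mem he, hPc]
        have : 0 < P.card := Finset.card_pos.2 ⟨e, he⟩
        omega
    have h1 := hPm _ hm
    rw [Finset.sum_insert hfn] at h1
    have h2 := Finset.add_sum_erase P w he
    linarith
  have hstep : ∑ e ∈ U, w e * c e ≤ ∑ e ∈ U, w e * max (c e) 0 :=
    Finset.sum_le_sum fun e _ => mul_le_mul_of_nonneg_left (le_max_left _ _) (hw e)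
  refine hstep.trans ?_
  have hm1 : ∀ e ∈ U, max (c e) 0 ≤ 1 := fun e he => max_le (hc1 e he) zero_le_one
  have hsplit : ∀ g : ι → ℝ, ∑ e ∈ U, g e = ∑ e ∈ P, g e + ∑ e ∈ U \ P, g e := by
    intro g
    rw [add_comm, Finset.sum_sdiff hPU]
  rcases P.eq_empty_or_nonempty with hPe | hPn
  · have hK0 : K = 0 := by rw [← hPc, hPe]; rfl
    have hz : ∑ e ∈ U, max (c e) 0 ≤ 0 := by simpa [hK0] using hcK
    have hz' : ∀ e ∈ U, max (c e) 0 = 0 := by
      have h0 : ∑ e ∈ U, max (c e) 0 = 0 :=
        le_antisymm hz (Finset.sum_nonneg fun e _ => le_max_right _ _)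
      exact (Finset.sum_eq_zero_iff_of_nonneg (fun e _ => le_max_right _ _)).1 h0
    rw [hPe, Finset.sum_empty]
    exact le_of_eq (Finset.sum_eq_zero fun e he => by rw [hz' e he, mul_zero])
  · obtain ⟨a, ha, ham⟩ := Finset.exists_min_image P w hPn
    set τ := w a with hτ
    have hτ0 : 0 ≤ τ := hw a
    have hlow : ∑ e ∈ U \ P, w e * max (c e) 0 ≤ τ * ∑ e ∈ U \ P, max (c e) 0 := by
      rw [Finset.mul_sum]
      exact Finset.sum_le_sum fun f hf =>
        mul_le_mul_of_nonneg_right (hswap a ha f hf) (le_max_right _ _)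
    have hrest : ∑ e ∈ U \ P, max (c e) 0 ≤ K - ∑ e ∈ P, max (c e) 0 := by
      have := hsplit (fun e => max (c e) 0)
      linarith
    have hKs : (K : ℝ) - ∑ e ∈ P, max (c e) 0 = ∑ e ∈ P, (1 - max (c e) 0) := by
      rw [Finset.sum_sub_distrib]; simp [hPc]
    have htop : τ * ∑ e ∈ P, (1 - max (c e) 0) ≤ ∑ e ∈ P, w e * (1 - max (c e) 0) := by
      rw [Finset.mul_sum]
      exact Finset.sum_le_sum fun e he =>
        mul_le_mul_of_nonneg_right (ham e he) (by have := hm1 e (hPU he); linarith)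
    have hfin : ∑ e ∈ P, w e * (1 - max (c e) 0) = ∑ e ∈ P, w e - ∑ e ∈ P, w e * max (c e) 0 := by
      rw [← Finset.sum_sub_distrib]
      exact Finset.sum_congr rfl fun e _ => by ring
    have h3 : τ * ∑ e ∈ U \ P, max (c e) 0 ≤ τ * ∑ e ∈ P, (1 - max (c e) 0) :=
      mul_le_mul_of_nonneg_left (by rw [← hKs]; exact hrest) hτ0
    rw [hsplit (fun e => w e * max (c e) 0)]
    linarith

variable {V : Type} [Fintype V] [DecidableEq V]

theorem t_le_two (P : Matrix V V ℝ) (hPs : Pᵀ = P) (hPi : P * P = P) (i j : V) (hij : i ≠ j) :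
    P i i + P j j - 2 * P i j ≤ 2 := by
  have hsym : ∀ a b, P a b = P b a := fun a b => by
    conv_lhs => rw [← hPs]
    rfl
  have hid : ∀ a b, ∑ l, P a l * P l b = P a b := fun a b => by
    conv_rhs => rw [← hPi]
    rw [Matrix.mul_apply]
  have key : ∑ l, (((if i = l then (1:ℝ) else 0) - P i l) - ((if j = l then (1:ℝ) else 0) - P j l)) ^ 2
      = 2 - (P i i + P j j - 2 * P i j) := by
    have e : ∀ l, (((if i = l then (1:ℝ) else 0) - P i l) - ((if j = l then (1:ℝ) else 0) - P j l)) ^ 2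
        = (if i = l then (1:ℝ) else 0) + (if j = l then (1:ℝ) else 0)
          - 2 * (if i = l then P i l else 0) + 2 * (if i = l then P j l else 0)
          + 2 * (if j = l then P i l else 0) - 2 * (if j = l then P j l else 0)
          + (P i l * P l i + P j l * P l j - 2 * (P i l * P l j)) := by
      intro l
      rw [hsym l i, hsym l j]
      by_cases h1 : i = l
      · have h2 : j ≠ l := fun h => hij (h1.trans h.symm)
        simp only [h1, if_true, h2, if_false]
        ring
      · by_cases h2 : j = l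
        · simp only [h1, if_false, h2, if_true]; ring
        · simp only [h1, h2, if_false]; ring
    rw [Finset.sum_congr rfl fun l _ => e l]
    simp only [Finset.sum_add_distrib, Finset.sum_sub_distrib, ← Finset.mul_sum, hid,
      Finset.sum_ite_eq, Finset.mem_univ, if_true]
    rw [hsym j i]
    ring
  have h0 : 0 ≤ ∑ l, (((if i = l then (1:ℝ) else 0) - P i l)
      - ((if j = l then (1:ℝ) else 0) - P j l)) ^ 2 :=
    Finset.sum_nonneg fun _ _ => sq_nonneg _
  rw [key] at h0
  linarith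

/-- Brouwer type bound for the positive part -/
theorem pos_part (P : Matrix V V ℝ) (hPs : Pᵀ = P) (hPi : P * P = P) (hP1 : ∀ i, ∑ j, P i j = 0) :
    ∑ i, ∑ j, max (P i i + P j j - 2 * P i j - 1) 0 ≤ (∑ i, P i i) ^ 2 + ∑ i, P i i := by
  classical
  have hsym : ∀ a b, P a b = P b a := fun a b => by
    conv_lhs => rw [← hPs]
    rfl
  have hc := Pool.Br.core_of_cut P hPs hPi hP1 (fun i j => 0 < P i i + P j j - 2 * P i j - 1)
    (fun i j h => by
      show 0 < P j j + P i i - 2 * P j i - 1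
      rw [hsym j i]; linarith)
    (fun S => Pool.Br.cut P hPs hPi hP1 (fun i j => 0 < P i i + P j j - 2 * P i j - 1) S)
  refine le_trans (le_of_eq ?_) hc
  apply Finset.sum_congr rfl; intro i _
  apply Finset.sum_congr rfl; intro j _
  split_ifs with h
  · exact max_eq_left h.le
  · exact max_eq_right (not_lt.1 h)

end Pool.H388R3.WB
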