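import Mathlib
set_option autoImplicit false
namespace Pool.H388R3.WB
open Finset Matrix

variable {V : Type} [Fintype V] [DecidableEq V]

/-- spectral projection entries -/
noncomputable def pr {M : Matrix V V ℝ} (hM : M.IsHermitian) (T : Finset V) : Matrix V V ℝ :=
  Matrix.of fun i j => ∑ a ∈ T, hM.eigenvectorBasis a i * hM.eigenvectorBasis a j

theorem orth {M : Matrix V V ℝ} (hM : M.IsHermitian) (a b : V) :
    ∑ l, hM.eigenvectorBasis a l * hM.eigenvectorBasis b l = if a = b then 1 else 0 := by
  have h := hM.eigenvectorBasis.orthonormal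
  rw [orthonormal_iff_ite] at h
  have := h b a
  rw [PiLp.inner_apply] at this
  simp only [RCLike.inner_apply, conj_trivial] at this
  rw [this]
  simp [eq_comm]

theorem pr_symm {M : Matrix V V ℝ} (hM : M.IsHermitian) (T : Finset V) : (pr hM T)ᵀ = pr hM T := by
  ext i j
  simp only [pr, Matrix.transpose_apply, Matrix.of_apply]
  exact Finset.sum_congr rfl fun a _ => mul_comm _ _

theorem pr_idem {M : Matrix V V ℝ} (hM : M.IsHermitian) (T : Finset V) :
    pr hM T * pr hM T = pr hM T := by
  ext i j
  rw [Matrix.mul_apply]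
  simp only [pr, Matrix.of_apply]
  have e : ∀ l, (∑ a ∈ T, hM.eigenvectorBasis a i * hM.eigenvectorBasis a l)
      * (∑ b ∈ T, hM.eigenvectorBasis b l * hM.eigenvectorBasis b j)
      = ∑ a ∈ T, ∑ b ∈ T, hM.eigenvectorBasis a i * hM.eigenvectorBasis b j *
          (hM.eigenvectorBasis a l * hM.eigenvectorBasis b l) := by
    intro l
    rw [Finset.sum_mul_sum]
    exact Finset.sum_congr rfl fun a _ => Finset.sum_congr rfl fun b _ => by ring
  rw [Finset.sum_congr rfl fun l _ => e l, Finset.sum_comm]
  apply Finset.sum_congr rfl; intro a ha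
  rw [Finset.sum_comm]
  rw [Finset.sum_eq_single a]
  · rw [← Finset.mul_sum, orth, if_pos rfl, mul_one]
  · intro b _ hb
    rw [← Finset.mul_sum, orth, if_neg (Ne.symm hb), mul_zero]
  · intro h; exact absurd ha h

theorem pr_trace {M : Matrix V V ℝ} (hM : M.IsHermitian) (T : Finset V) :
    ∑ i, pr hM T i i = T.card := by
  simp only [pr, Matrix.of_apply]
  rw [Finset.sum_comm]
  rw [Finset.sum_congr rfl fun a _ => orth hM a a]
  simp

theorem eig_apply {M : Matrix V V ℝ} (hM : M.IsHermitian) (a i : V) :
    ∑ j, M i j * hM.eigenvectorBasis a j = hM.eigenvalues a * hM.eigenvectorBasis a i := by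
  have h := congrFun (hM.mulVec_eigenvectorBasis a) i
  simpa [Matrix.mulVec, dotProduct] using h

theorem sum_eig {M : Matrix V V ℝ} (hM : M.IsHermitian) (T : Finset V) :
    ∑ a ∈ T, hM.eigenvalues a = ∑ i, ∑ j, M i j * pr hM T i j := by
  have e : ∀ a, hM.eigenvalues a = ∑ i, ∑ j, M i j * (hM.eigenvectorBasis a i * hM.eigenvectorBasis a j) := by
    intro a
    have h1 : hM.eigenvalues a = ∑ i, hM.eigenvectorBasis a i * (hM.eigenvalues a * hM.eigenvectorBasis a i) := by
      have := orth hM a a
      rw [if_pos rfl] at this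
      calc hM.eigenvalues a = hM.eigenvalues a * ∑ l, hM.eigenvectorBasis a l * hM.eigenvectorBasis a l := by
            rw [this, mul_one]
        _ = _ := by
            rw [Finset.mul_sum]
            exact Finset.sum_congr rfl fun i _ => by ring
    rw [h1]
    apply Finset.sum_congr rfl; intro i _
    rw [← eig_apply, Finset.mul_sum]
    exact Finset.sum_congr rfl fun j _ => by ring
  rw [Finset.sum_congr rfl fun a _ => e a, Finset.sum_comm]
  apply Finset.sum_congr rfl; intro i _
  rw [Finset.sum_comm]
  apply Finset.sum_congr rfl; intro j _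
  simp only [pr, Matrix.of_apply]
  rw [Finset.mul_sum]

/-- eigenvectors with nonzero eigenvalue of a matrix with zero column sums have zero sum -/
theorem sum_zero {M : Matrix V V ℝ} (hM : M.IsHermitian) (hcol : ∀ j, ∑ i, M i j = 0) (a : V)
    (ha : hM.eigenvalues a ≠ 0) : ∑ i, hM.eigenvectorBasis a i = 0 := by
  have h : hM.eigenvalues a * ∑ i, hM.eigenvectorBasis a i = 0 := by
    rw [Finset.mul_sum, ← Finset.sum_congr rfl fun i _ => eig_apply hM a i, Finset.sum_comm]
    apply Finset.sum_eq_zero; intro j _
    rw [← Finset.sum_mul, hcol j, zero_mul]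
  rcases mul_eq_zero.1 h with h | h
  · exact absurd h ha
  · exact h

end Pool.H388R3.WB
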